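import Pool.Agent.Lib.BalShift.Ls

/-!
# Stresses in characteristic two: the quadratic identity and the symmetric cycle
-/

open Finset

namespace BalShift

variable {V : Type*} {k : Type*} [CommRing k]

/-- `l` is a stress: all sections in the direction of one coordinate are orthogonal to the two
functions `a`, `b` -/
def Stress [Fintype V] {m : ℕ} (a b : V → k) (l : (Fin m → V) → k) : Prop :=
  ∀ (i : Fin m) (g : Fin m → V),
    ∑ w, l (Function.update g i w) * a w = 0 ∧ ∑ w, l (Function.update g i w) * b w = 0

/-- the symmetric bracket -/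
def br (a b : V → k) (u v : V) : k := a u * b v + a v * b u

lemma br_comm (a b : V → k) (u v : V) : br a b u v = br a b v u := by
  simp only [br]; ring

lemma br_self [CharP k 2] (a b : V → k) (u : V) : br a b u u = 0 := by
  rw [br]; exact CharTwo.add_self_eq_zero _

section bilin

variable [Fintype V] [LinearOrder V]

/-- half of the bilinear form -/
def Bf {m : ℕ} (a b : V → k) (l μ : (Fin m → V) → k) : k :=
  ∑ c : Fin m → V, ∑ c' : Fin m → V,
    if ∀ i, c i < c' i then l c * μ c' * ∏ i, br a b (c i) (c' i) else 0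

omit [LinearOrder V] in
lemma sum_cons {m : ℕ} (F : (Fin (m + 1) → V) → k) :
    ∑ c, F c = ∑ u, ∑ c : Fin m → V, F (Fin.cons u c) := by
  rw [← Finset.sum_product', ← Finset.univ_product_univ.symm]
  exact ((Fin.consEquiv (fun _ : Fin (m + 1) => V)).sum_comp F).symm

lemma Bf_succ {m : ℕ} (a b : V → k) (l μ : (Fin (m + 1) → V) → k) :
    Bf a b l μ = ∑ u, ∑ v, if u < v then
      br a b u v * Bf a b (fun c : Fin m → V => l (Fin.cons u c))
        (fun c : Fin m → V => μ (Fin.cons v c)) else 0 := by
  rw [Bf, sum_cons]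
  refine Finset.sum_congr rfl fun u _ => ?_
  have h1 : ∀ c : Fin m → V, (∑ c' : Fin (m + 1) → V,
      if ∀ i, (Fin.cons u c : Fin (m + 1) → V) i < c' i then
        l (Fin.cons u c) * μ c' * ∏ i, br a b ((Fin.cons u c : Fin (m + 1) → V) i) (c' i) else 0) =
      ∑ v, ∑ c' : Fin m → V, if u < v then br a b u v *
        (if ∀ i, c i < c' i then l (Fin.cons u c) * μ (Fin.cons v c') *
          ∏ i, br a b (c i) (c' i) else 0) else 0 := by
    intro c
    rw [sum_cons]
    refine Finset.sum_congr rfl fun v _ => Finset.sum_congr rfl fun c' _ => ?_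
    have hiff : (∀ i, (Fin.cons u c : Fin (m + 1) → V) i < (Fin.cons v c' : Fin (m + 1) → V) i) ↔
        u < v ∧ ∀ i, c i < c' i := by
      rw [Fin.forall_fin_succ]
      simp only [Fin.cons_zero, Fin.cons_succ]
    rw [Fin.prod_univ_succ]
    simp only [Fin.cons_zero, Fin.cons_succ]
    by_cases h : u < v
    · by_cases h' : ∀ i, c i < c' i
      · rw [if_pos (hiff.2 ⟨h, h'⟩), if_pos h, if_pos h']; ring
      · rw [if_neg (fun h2 => h' (hiff.1 h2).2), if_pos h, if_neg h', mul_zero]
    · rw [if_neg (fun h2 => h (hiff.1 h2).1), if_neg h]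
  rw [Finset.sum_congr rfl fun c _ => h1 c, Finset.sum_comm]
  refine Finset.sum_congr rfl fun v _ => ?_
  by_cases h : u < v
  · simp only [if_pos h, Bf, Finset.mul_sum]
  · simp only [if_neg h, Finset.sum_const_zero]

lemma Bf_sum_left {m : ℕ} (a b : V → k) (t : V → k) (L : V → (Fin m → V) → k)
    (μ : (Fin m → V) → k) :
    ∑ u, t u * Bf a b (L u) μ = Bf a b (fun c => ∑ u, L u c * t u) μ := by
  simp only [Bf, Finset.mul_sum]
  rw [Finset.sum_comm]
  refine Finset.sum_congr rfl fun c _ => ?_
  rw [Finset.sum_comm]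
  refine Finset.sum_congr rfl fun c' _ => ?_
  by_cases h : ∀ i, c i < c' i
  · simp only [if_pos h, Finset.sum_mul]
    exact Finset.sum_congr rfl fun u _ => by ring
  · simp only [if_neg h, mul_zero, Finset.sum_const_zero]

lemma Bf_sum_right {m : ℕ} (a b : V → k) (t : V → k) (L : V → (Fin m → V) → k)
    (l : (Fin m → V) → k) :
    ∑ u, t u * Bf a b l (L u) = Bf a b l (fun c => ∑ u, L u c * t u) := by
  simp only [Bf, Finset.mul_sum]
  rw [Finset.sum_comm]
  refine Finset.sum_congr rfl fun c _ => ?_
  rw [Finset.sum_comm]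
  refine Finset.sum_congr rfl fun c' _ => ?_
  by_cases h : ∀ i, c i < c' i
  · simp only [if_pos h, Finset.sum_mul]
    exact Finset.sum_congr rfl fun u _ => by ring
  · simp only [if_neg h, mul_zero, Finset.sum_const_zero]

lemma Bf_zero_left {m : ℕ} (a b : V → k) (μ : (Fin m → V) → k) :
    Bf a b (fun _ => 0) μ = 0 := by
  simp [Bf]

lemma Bf_zero_right {m : ℕ} (a b : V → k) (l : (Fin m → V) → k) :
    Bf a b l (fun _ => 0) = 0 := by
  simp [Bf]

omit [LinearOrder V] in
lemma Stress.sum_a {m : ℕ} {a b : V → k} {l : (Fin (m + 1) → V) → k} (h : Stress a b l)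
    (c : Fin m → V) : ∑ w, l (Fin.cons w c) * a w = 0 := by
  rcases isEmpty_or_nonempty V with hV | ⟨⟨x⟩⟩
  · simp
  · have := (h 0 (Fin.cons x c)).1
    simpa only [Fin.update_cons_zero] using this

omit [LinearOrder V] in
lemma Stress.sum_b {m : ℕ} {a b : V → k} {l : (Fin (m + 1) → V) → k} (h : Stress a b l)
    (c : Fin m → V) : ∑ w, l (Fin.cons w c) * b w = 0 := by
  rcases isEmpty_or_nonempty V with hV | ⟨⟨x⟩⟩
  · simp
  · have := (h 0 (Fin.cons x c)).2
    simpa only [Fin.update_cons_zero] using this

omit [LinearOrder V] in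
lemma Stress.tail {m : ℕ} {a b : V → k} {l : (Fin (m + 1) → V) → k} (h : Stress a b l)
    (u : V) : Stress a b (fun c : Fin m → V => l (Fin.cons u c)) := by
  intro i g
  have := h i.succ (Fin.cons u g)
  simpa only [← Fin.cons_update] using this

/-- splitting a double sum along the order -/
lemma tri (G : V → V → k) :
    ∑ u, ∑ v, G u v = (∑ u, ∑ v, if u < v then G u v else 0) +
      (∑ u, ∑ v, if u < v then G v u else 0) + ∑ u, G u u := by
  have h1 : (∑ u, ∑ v, if u < v then G v u else 0) = ∑ u, ∑ v, if v < u then G u v else 0 :=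
    Finset.sum_comm
  have h2 : ∑ u, G u u = ∑ u, ∑ v, if u = v then G u v else 0 := by
    refine Finset.sum_congr rfl fun u _ => ?_
    simp
  rw [h1, h2, ← Finset.sum_add_distrib, ← Finset.sum_add_distrib]
  refine Finset.sum_congr rfl fun u _ => ?_
  rw [← Finset.sum_add_distrib, ← Finset.sum_add_distrib]
  refine Finset.sum_congr rfl fun v _ => ?_
  rcases lt_trichotomy u v with h | h | h
  · rw [if_pos h, if_neg (not_lt.2 h.le), if_neg h.ne]; ring
  · subst h; simp
  · rw [if_neg (not_lt.2 h.le), if_pos h, if_neg h.ne']; ring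

theorem Bf_symm [CharP k 2] {m : ℕ} (a b : V → k) (l μ : (Fin m → V) → k)
    (hl : Stress a b l) (hμ : Stress a b μ) : Bf a b l μ = Bf a b μ l := by
  induction m with
  | zero =>
    simp only [Bf, Fintype.sum_unique, Finset.univ_eq_empty, Finset.prod_empty]
    simp [mul_comm]
  | succ m ih =>
    rw [Bf_succ, Bf_succ]
    set G : V → V → k := fun u v => Bf a b (fun c : Fin m → V => l (Fin.cons u c))
        (fun c : Fin m → V => μ (Fin.cons v c)) with hG
    have h1 : ∀ u v, Bf a b (fun c : Fin m → V => μ (Fin.cons u c))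
        (fun c : Fin m → V => l (Fin.cons v c)) = G v u := by
      intro u v
      exact ih _ _ (hμ.tail u) (hl.tail v)
    simp only [h1]
    have h2 := tri fun u v => br a b u v * G u v
    have h3 : ∑ u, ∑ v, br a b u v * G u v = 0 := by
      have e1 : ∀ v, ∑ u, a u * G u v = 0 := by
        intro v
        rw [hG]
        simp only
        rw [Bf_sum_left]
        simp only [hl.sum_a]
        exact Bf_zero_left _ _ _
      have e2 : ∀ v, ∑ u, b u * G u v = 0 := by
        intro v
        rw [hG]
        simp only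
        rw [Bf_sum_left]
        simp only [hl.sum_b]
        exact Bf_zero_left _ _ _
      rw [Finset.sum_comm]
      refine Finset.sum_eq_zero fun v _ => ?_
      have : ∀ u, br a b u v * G u v = b v * (a u * G u v) + a v * (b u * G u v) := by
        intro u; rw [br]; ring
      simp only [this, Finset.sum_add_distrib, ← Finset.mul_sum, e1, e2]
      ring
    have h4 : ∑ u, br a b u u * G u u = 0 := by
      refine Finset.sum_eq_zero fun u _ => ?_
      rw [br_self, zero_mul]
    rw [h3, h4, add_zero] at h2
    have h5 : (∑ u, ∑ v, if u < v then br a b v u * G v u else 0) =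
        ∑ u, ∑ v, if u < v then br a b u v * G v u else 0 := by
      refine Finset.sum_congr rfl fun u _ => Finset.sum_congr rfl fun v _ => ?_
      rw [br_comm a b v u]
    rw [h5] at h2
    exact (CharTwo.add_eq_zero.1 h2.symm)

theorem Bf_self [CharP k 2] {m : ℕ} (a b : V → k) (l : (Fin m → V) → k)
    (hl : Stress a b l) :
    Bf a b l l = ∑ c, l c ^ 2 * ∏ i, (a (c i) * b (c i)) := by
  induction m with
  | zero =>
    simp only [Bf, Fintype.sum_unique, Finset.univ_eq_empty, Finset.prod_empty]
    simp [sq]
  | succ m ih =>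
    rw [Bf_succ, sum_cons]
    set G : V → V → k := fun u v => Bf a b (fun c : Fin m → V => l (Fin.cons u c))
        (fun c : Fin m → V => l (Fin.cons v c)) with hG
    have hsymm : ∀ u v, G u v = G v u := fun u v => Bf_symm a b _ _ (hl.tail u) (hl.tail v)
    have h2 := tri fun u v => a u * b v * G u v
    have h3 : ∑ u, ∑ v, a u * b v * G u v = 0 := by
      rw [Finset.sum_comm]
      refine Finset.sum_eq_zero fun v _ => ?_
      have e1 : ∑ u, a u * G u v = 0 := by
        rw [hG]
        simp only
        rw [Bf_sum_left]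
        simp only [hl.sum_a]
        exact Bf_zero_left _ _ _
      have : ∀ u, a u * b v * G u v = b v * (a u * G u v) := by
        intro u; ring
      simp only [this, ← Finset.mul_sum, e1, mul_zero]
    have h4 : (∑ u, ∑ v, if u < v then a v * b u * G v u else 0) =
        ∑ u, ∑ v, if u < v then a v * b u * G u v else 0 := by
      refine Finset.sum_congr rfl fun u _ => Finset.sum_congr rfl fun v _ => ?_
      rw [hsymm v u]
    have h5 : (∑ u, ∑ v, if u < v then br a b u v * G u v else 0) =
        (∑ u, ∑ v, if u < v then a u * b v * G u v else 0) +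
        ∑ u, ∑ v, if u < v then a v * b u * G v u else 0 := by
      rw [h4, ← Finset.sum_add_distrib]
      refine Finset.sum_congr rfl fun u _ => ?_
      rw [← Finset.sum_add_distrib]
      refine Finset.sum_congr rfl fun v _ => ?_
      by_cases h : u < v
      · simp only [if_pos h, br]; ring
      · simp only [if_neg h]; ring
    have h6 : (∑ u, ∑ v, if u < v then br a b u v * G u v else 0) = ∑ u, a u * b u * G u u := by
      rw [h5]
      rw [h3] at h2
      exact CharTwo.add_eq_zero.1 h2.symm
    rw [h6]
    refine Finset.sum_congr rfl fun u _ => ?_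
    simp only [hG]
    rw [ih _ (hl.tail u), Finset.mul_sum]
    refine Finset.sum_congr rfl fun c _ => ?_
    rw [Fin.prod_univ_succ]
    simp only [Fin.cons_zero, Fin.cons_succ]
    ring

end bilin

end BalShift
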