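import Pool.Agent.Lib.BalShift.Fan

/-!
# Barycentric subdivision of affine simplices, as lists of points
-/

open Finset

namespace BalShift

section alg

variable {E : Type*} [AddCommGroup E] [Module ℝ E]

/-- barycentre of a list -/
noncomputable def bary (l : List E) : E := (l.length : ℝ)⁻¹ • l.sum

/-- barycentric subdivision of the simplex with vertex list `l` (of length `n`) -/
noncomputable def sdiv : ℕ → List E → List (List E)
  | 0, _ => [[]]
  | (n + 1), l => (faces l).flatMap fun m => (sdiv n m).map fun m' => bary l :: m'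

/-- iterated subdivision -/
noncomputable def sdi : ℕ → ℕ → List E → List (List E)
  | 0, _, l => [l]
  | (N + 1), n, l => (sdiv n l).flatMap (sdi N n)

lemma sum_map_flatMap {α β : Type*} {k : Type*} [AddCommMonoid k] (L : List α)
    (g : α → List β) (φ : β → k) :
    ((L.flatMap g).map φ).sum = (L.map fun m => ((g m).map φ).sum).sum := by
  induction L with
  | nil => simp
  | cons x L ih => simp [List.flatMap_cons, ih]

lemma length_of_mem_sdiv {n : ℕ} {l m : List E} (hl : l.length = n) (h : m ∈ sdiv n l) :
    m.length = n := by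
  induction n generalizing l m with
  | zero => simp [sdiv] at h; simp [h]
  | succ n ih =>
    simp only [sdiv, List.mem_flatMap, List.mem_map] at h
    obtain ⟨f, hf, m', hm', rfl⟩ := h
    have h1 := length_of_mem_faces hf
    have := ih (by omega) hm'
    simp [this]

lemma sum_sdiv_succ {k : Type*} [AddCommMonoid k] (n : ℕ) (φ : List E → k) (l : List E) :
    ((sdiv (n + 1) l).map φ).sum =
      fsum (fun m => ((sdiv n m).map fun m' => φ (bary l :: m')).sum) l := by
  rw [sdiv, sum_map_flatMap, fsum]
  simp [List.map_map, Function.comp_def]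

lemma sum_map_add' {α : Type*} {k : Type*} [AddCommMonoid k] (L : List α) (f g : α → k) :
    (L.map fun x => f x + g x).sum = (L.map f).sum + (L.map g).sum := by
  induction L with
  | nil => simp
  | cons x L ih => simp only [List.map_cons, List.sum_cons, ih]; abel

/-- subdivision is a chain map (dual form, characteristic two) -/
theorem sdiv_chain {k : Type*} [CommRing k] [CharP k 2] (n : ℕ) (φ : List E → k) (l : List E)
    (hl : l.length = n) :
    ((sdiv n l).map (fsum φ)).sum = fsum (fun m => ((sdiv (n - 1) m).map φ).sum) l := by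
  induction n generalizing φ l with
  | zero =>
    have : l = [] := List.length_eq_zero_iff.1 hl
    subst this
    simp [sdiv, fsum_nil]
  | succ n ih =>
    rw [sum_sdiv_succ]
    have h1 : ∀ m ∈ faces l, ((sdiv n m).map fun m' => fsum φ (bary l :: m')).sum =
        ((sdiv n m).map φ).sum +
          fsum (fun m'' => ((sdiv (n - 1) m'').map fun m' => φ (bary l :: m')).sum) m := by
      intro m hm
      have h2 := length_of_mem_faces hm
      rw [← ih (fun m' => φ (bary l :: m')) m (by omega), ← sum_map_add']
      simp only [fsum_cons]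
    rw [fsum_congr h1, fsum_add, fsum_fsum, add_zero, Nat.add_sub_cancel]

lemma length_of_mem_sdi {N n : ℕ} {l m : List E} (hl : l.length = n) (h : m ∈ sdi N n l) :
    m.length = n := by
  induction N generalizing l with
  | zero => simp [sdi] at h; simp [h, hl]
  | succ N ih =>
    simp only [sdi, List.mem_flatMap] at h
    obtain ⟨m', hm', h⟩ := h
    exact ih (length_of_mem_sdiv hl hm') h

/-- iterated subdivision is a chain map -/
theorem sdi_chain {k : Type*} [CommRing k] [CharP k 2] (N n : ℕ) (φ : List E → k) (l : List E)
    (hl : l.length = n + 1) :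
    ((sdi N (n + 1) l).map (fsum φ)).sum = fsum (fun m => ((sdi N n m).map φ).sum) l := by
  induction N generalizing l with
  | zero => simp [sdi]
  | succ N ih =>
    rw [sdi, sum_map_flatMap]
    have h1 : ∀ m ∈ sdiv (n + 1) l, ((sdi N (n + 1) m).map (fsum φ)).sum =
        fsum (fun f => ((sdi N n f).map φ).sum) m :=
      fun m hm => ih m (length_of_mem_sdiv hl hm)
    rw [List.map_congr_left h1]
    have h2 := sdiv_chain (n + 1) (fun f : List E => ((sdi N n f).map φ).sum) l hl
    rw [Nat.add_sub_cancel] at h2
    refine h2.trans ?_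
    refine fsum_congr fun m _ => ?_
    rw [sdi, sum_map_flatMap]

lemma bary_map (T : E →ₗ[ℝ] E) (l : List E) : bary (l.map T) = T (bary l) := by
  rw [bary, bary, map_smul, List.length_map, map_list_sum]

lemma sdiv_map (T : E →ₗ[ℝ] E) (n : ℕ) (l : List E) :
    sdiv n (l.map T) = (sdiv n l).map (List.map T) := by
  induction n generalizing l with
  | zero => simp [sdiv]
  | succ n ih =>
    simp only [sdiv, faces_map, List.flatMap_map, List.map_flatMap, List.map_map, ih, bary_map]
    rfl

lemma sdi_map (T : E →ₗ[ℝ] E) (N n : ℕ) (l : List E) :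
    sdi N n (l.map T) = (sdi N n l).map (List.map T) := by
  induction N generalizing l with
  | zero => simp [sdi]
  | succ N ih =>
    simp only [sdi, sdiv_map, List.flatMap_map, List.map_flatMap, ih]

end alg

section geo

variable {E : Type*} [NormedAddCommGroup E] [NormedSpace ℝ E]

lemma bary_mem {s : Set E} (hs : Convex ℝ s) (l : List E) (hl : l ≠ []) (h : ∀ x ∈ l, x ∈ s) :
    bary l ∈ s := by
  induction l with
  | nil => exact absurd rfl hl
  | cons x l ih =>
    by_cases hl' : l = []
    · subst hl'; simpa [bary] using h x (by simp)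
    · have h1 := ih hl' fun y hy => h y (by simp [hy])
      have h2 := h x (by simp)
      have hn : (0 : ℝ) < l.length := by
        have := List.length_pos_iff.2 hl'
        exact_mod_cast this
      have h3 : bary (x :: l) = (1 / ((l.length : ℝ) + 1)) • x +
          ((l.length : ℝ) / ((l.length : ℝ) + 1)) • bary l := by
        rw [bary, bary, smul_smul]
        simp only [List.length_cons, List.sum_cons, Nat.cast_add, Nat.cast_one]
        have : (l.length : ℝ) / ((l.length : ℝ) + 1) * (l.length : ℝ)⁻¹ =
            ((l.length : ℝ) + 1)⁻¹ := by field_simp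
        rw [this, smul_add, one_div]
      rw [h3]
      refine hs h2 h1 (by positivity) (by positivity) ?_
      field_simp
      ring

lemma sdiv_hull {n : ℕ} {l m : List E} (hl : l.length = n) (h : m ∈ sdiv n l) :
    ∀ x ∈ m, x ∈ convexHull ℝ {y | y ∈ l} := by
  induction n generalizing l m with
  | zero => simp [sdiv] at h; simp [h]
  | succ n ih =>
    simp only [sdiv, List.mem_flatMap, List.mem_map] at h
    obtain ⟨f, hf, m', hm', rfl⟩ := h
    intro x hx
    rw [List.mem_cons] at hx
    have h1 := length_of_mem_faces hf
    rcases hx with rfl | hx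
    · apply bary_mem (convex_convexHull ℝ _) l
      · intro h; simp [h] at hl
      · intro y hy; exact subset_convexHull ℝ _ hy
    · have h2 := ih (by omega) hm' x hx
      exact convexHull_mono (fun y hy => (sublist_of_mem_faces hf).subset hy) h2

lemma dist_bary_le {l : List E} {D : ℝ} {n : ℕ} (hl : l.length = n + 1)
    (h : ∀ x ∈ l, ∀ y ∈ l, dist x y ≤ D) {v : E} (hv : v ∈ l) :
    dist v (bary l) ≤ (n / (n + 1) : ℝ) * D := by
  have h1 : bary l - v = ((n : ℝ) + 1)⁻¹ • (l.map fun x => x - v).sum := by
    have h2 : (l.map fun x => x - v).sum = l.sum - (l.length : ℝ) • v := by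
      clear hl h hv
      induction l with
      | nil => simp
      | cons x l ih =>
        simp only [List.map_cons, List.sum_cons, ih, List.length_cons, Nat.cast_add, Nat.cast_one,
          add_smul, one_smul]
        abel
    rw [h2, bary, hl, smul_sub, smul_smul]
    push_cast
    rw [inv_mul_cancel₀ (by positivity), one_smul]
  rw [dist_comm, dist_eq_norm, h1, norm_smul]
  obtain ⟨s, t, rfl⟩ := List.append_of_mem hv
  have hlen : s.length + t.length = n := by simp at hl; omega
  have h3 : ∀ w : List E, (∀ x ∈ w, x ∈ s ++ v :: t) →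
      ‖(w.map fun x => x - v).sum‖ ≤ w.length * D := by
    intro w
    induction w with
    | nil => intro _; simp
    | cons x w ih =>
      intro hw
      simp only [List.map_cons, List.sum_cons, List.length_cons, Nat.cast_add, Nat.cast_one]
      refine (norm_add_le _ _).trans ?_
      have h4 := ih fun y hy => hw y (by simp [hy])
      have h5 : ‖x - v‖ ≤ D := by
        rw [← dist_eq_norm]
        exact h x (hw x (by simp)) v (by simp)
      linarith
  have h6 := h3 s (by intro x hx; simp [hx])
  have h7 := h3 t (by intro x hx; simp [hx])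
  have h8 : ‖((s ++ v :: t).map fun x => x - v).sum‖ ≤ n * D := by
    have : ((s ++ v :: t).map fun x => x - v).sum =
        (s.map fun x => x - v).sum + (t.map fun x => x - v).sum := by
      simp
    rw [this]
    refine (norm_add_le _ _).trans ?_
    have : (n : ℝ) = s.length + t.length := by exact_mod_cast hlen.symm
    rw [this]
    linarith
  rw [norm_inv, Real.norm_of_nonneg (by positivity : (0 : ℝ) ≤ (n : ℝ) + 1), div_mul_eq_mul_div,
    inv_mul_eq_div]
  gcongr

/-- the mesh shrinks -/
lemma sdiv_dist {n : ℕ} {l m : List E} {D : ℝ} (hl : l.length = n + 1)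
    (h : ∀ x ∈ l, ∀ y ∈ l, dist x y ≤ D) (hm : m ∈ sdiv (n + 1) l) :
    ∀ x ∈ m, ∀ y ∈ m, dist x y ≤ (n / (n + 1) : ℝ) * D := by
  induction n generalizing l m with
  | zero =>
    simp only [sdiv, List.mem_flatMap, List.mem_map] at hm
    obtain ⟨f, hf, m', hm', rfl⟩ := hm
    simp at hm'
    subst hm'
    intro x hx y hy
    simp at hx hy
    simp [hx, hy]
  | succ n ih =>
    have hD : 0 ≤ D := by
      have hne : l ≠ [] := by intro h'; simp [h'] at hl
      obtain ⟨v, hv⟩ := List.exists_mem_of_ne_nil l hne
      have := h v hv v hv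
      simpa using this
    rw [sdiv] at hm
    simp only [List.mem_flatMap, List.mem_map] at hm
    obtain ⟨f, hf, m', hm', rfl⟩ := hm
    have hfl := length_of_mem_faces hf
    have hfs := (sublist_of_mem_faces hf).subset
    have h1 := ih (by omega) (fun x hx y hy => h x (hfs hx) y (hfs hy)) hm'
    have h2 : ∀ y ∈ m', dist y (bary l) ≤ (((n + 1 : ℕ) : ℝ) / (((n + 1 : ℕ) : ℝ) + 1)) * D := by
      intro y hy
      have h3 := sdiv_hull (by omega) hm' y hy
      have h4 : convexHull ℝ {y | y ∈ f} ⊆ Metric.closedBall (bary l)
          ((((n + 1 : ℕ) : ℝ) / (((n + 1 : ℕ) : ℝ) + 1)) * D) := by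
        refine convexHull_min ?_ (convex_closedBall _ _)
        intro v hv
        exact dist_bary_le hl h (hfs hv)
      exact h4 h3
    have h5 : (n / (n + 1) : ℝ) * D ≤ (((n + 1 : ℕ) : ℝ) / (((n + 1 : ℕ) : ℝ) + 1)) * D := by
      refine mul_le_mul_of_nonneg_right ?_ hD
      push_cast
      rw [div_le_div_iff₀ (by positivity) (by positivity)]
      nlinarith
    intro x hx y hy
    rw [List.mem_cons] at hx hy
    rcases hx with rfl | hx <;> rcases hy with rfl | hy
    · rw [dist_self]; positivity
    · rw [dist_comm]; exact h2 y hy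
    · exact h2 x hx
    · exact (h1 x hx y hy).trans h5

lemma sdi_hull {N n : ℕ} {l m : List E} (hl : l.length = n) (h : m ∈ sdi N n l) :
    ∀ x ∈ m, x ∈ convexHull ℝ {y | y ∈ l} := by
  induction N generalizing l with
  | zero =>
    simp [sdi] at h
    subst h
    intro x hx; exact subset_convexHull ℝ _ hx
  | succ N ih =>
    simp only [sdi, List.mem_flatMap] at h
    obtain ⟨m', hm', h⟩ := h
    intro x hx
    have h1 := ih (length_of_mem_sdiv hl hm') h x hx
    refine convexHull_min (fun y hy => ?_) (convex_convexHull ℝ _) h1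
    exact sdiv_hull hl hm' y hy

lemma sdi_dist {N n : ℕ} {l m : List E} {D : ℝ} (hl : l.length = n + 1)
    (h : ∀ x ∈ l, ∀ y ∈ l, dist x y ≤ D) (hm : m ∈ sdi N (n + 1) l) :
    ∀ x ∈ m, ∀ y ∈ m, dist x y ≤ (n / (n + 1) : ℝ) ^ N * D := by
  induction N generalizing l D with
  | zero =>
    simp [sdi] at hm
    subst hm
    simpa using h
  | succ N ih =>
    simp only [sdi, List.mem_flatMap] at hm
    obtain ⟨m', hm', hm⟩ := hm
    have h1 := ih (length_of_mem_sdiv hl hm') (sdiv_dist hl h hm') hm
    rw [pow_succ, mul_assoc]
    exact h1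

end geo

end BalShift
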