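import Pool.Agent.Lib.BalShift.Ls
import Pool.Agent.Lib.BalShift.Sdiv

/-!
# The Borsuk-Ulam type theorem: symmetric cycles and antipodal maps
-/

open Finset

namespace BalShift

variable {V : Type*} [Fintype V] [LinearOrder V]

/-- geometric realisation of a family of finite sets -/
def real {W : Type*} [Fintype W] (S : Finset W → Prop) : Set (W → ℝ) :=
  {y | (∀ w, 0 ≤ y w) ∧ ∑ w, y w = 1 ∧ ∃ s, S s ∧ ∀ w, y w ≠ 0 → w ∈ s}

/-- the linear involution -/
noncomputable def flipL (V : Type*) : (V × Bool → ℝ) →ₗ[ℝ] (V × Bool → ℝ) :=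
  LinearMap.funLeft ℝ ℝ (flipE V)

@[simp] lemma flipL_apply {V : Type*} (y : V × Bool → ℝ) (w : V × Bool) :
    flipL V y w = y (flipE V w) := rfl

lemma isCompact_real {W : Type*} [Fintype W] (S : Finset W → Prop) : IsCompact (real S) := by
  classical
  have h1 : real S = ⋃ s ∈ {s : Finset W | S s},
      (stdSimplex ℝ W ∩ {y | ∀ w, w ∉ s → y w = 0}) := by
    ext y
    simp only [real, Set.mem_setOf_eq, Set.mem_iUnion, exists_prop, Set.mem_inter_iff, stdSimplex]
    constructor
    · rintro ⟨h1, h2, s, hs, h3⟩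
      exact ⟨s, hs, ⟨h1, h2⟩, fun w hw => by_contra fun h => hw (h3 w h)⟩
    · rintro ⟨s, hs, ⟨h1, h2⟩, h3⟩
      exact ⟨h1, h2, s, hs, fun w hw => by_contra fun h => hw (h3 w h)⟩
  rw [h1]
  refine (Set.toFinite _).isCompact_biUnion fun s _ => ?_
  refine (isCompact_stdSimplex ℝ W).inter_right ?_
  have : {y : W → ℝ | ∀ w, w ∉ s → y w = 0} = ⋂ w, ⋂ (_ : w ∉ s), {y | y w = 0} := by
    ext y; simp
  rw [this]
  exact isClosed_iInter fun w => isClosed_iInter fun _ => isClosed_eq (continuous_apply w)
    continuous_const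

open Classical in
/-- vertices -/
noncomputable def vtx {W : Type*} (w : W) : W → ℝ := Pi.single w 1

lemma vtx_flip (x : V × Bool) : vtx (flipE V x) = flipL V (vtx x) := by
  classical
  funext w
  simp only [vtx, flipL_apply, Pi.single_apply]
  by_cases h : w = flipE V x
  · subst h; simp
  · rw [if_neg h, if_neg]
    intro h'
    apply h
    rw [← h', flipE_flipE]

lemma dist_vtx_le {W : Type*} [Fintype W] (x y : W) : dist (vtx x) (vtx y) ≤ 1 := by
  classical
  rw [dist_pi_le_iff zero_le_one]
  intro w
  simp only [vtx, Pi.single_apply]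
  split_ifs <;> simp

lemma hull_subset_real {W : Type*} [Fintype W] {S : Finset W → Prop} {s : Finset W} (hs : S s)
    {l : List W} (hl : ∀ x ∈ l, x ∈ s) :
    convexHull ℝ {y : W → ℝ | y ∈ l.map vtx} ⊆
      {y | (∀ w, 0 ≤ y w) ∧ ∑ w, y w = 1 ∧ ∀ w, y w ≠ 0 → w ∈ s} := by
  classical
  apply convexHull_min
  · intro y hy
    simp only [Set.mem_setOf_eq, List.mem_map] at hy
    obtain ⟨x, hx, rfl⟩ := hy
    refine ⟨fun w => ?_, ?_, fun w hw => ?_⟩
    · simp only [vtx, Pi.single_apply]; split_ifs <;> simp
    · simp [vtx, Pi.single_apply]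
    · simp only [vtx, Pi.single_apply] at hw
      split_ifs at hw with h
      · subst h; exact hl _ hx
      · exact absurd rfl hw
  · intro y hy z hz a b ha hb hab
    refine ⟨fun w => ?_, ?_, fun w hw => ?_⟩
    · have h1 := hy.1 w
      have h2 := hz.1 w
      simp only [Pi.add_apply, Pi.smul_apply, smul_eq_mul]
      positivity
    · simp only [Pi.add_apply, Pi.smul_apply, smul_eq_mul]
      rw [Finset.sum_add_distrib, ← Finset.mul_sum, ← Finset.mul_sum, hy.2.1, hz.2.1]
      linarith
    · by_contra h
      have h1 : y w = 0 := by_contra fun h' => h (hy.2.2 w h')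
      have h2 : z w = 0 := by_contra fun h' => h (hz.2.2 w h')
      apply hw
      simp [h1, h2]

lemma mem_real_of_hull {W : Type*} [Fintype W] {S : Finset W → Prop} {s : Finset W} (hs : S s)
    {l : List W} (hl : ∀ x ∈ l, x ∈ s) {y : W → ℝ}
    (hy : y ∈ convexHull ℝ {y : W → ℝ | y ∈ l.map vtx}) : y ∈ real S := by
  have := hull_subset_real hs hl hy
  exact ⟨this.1, this.2.1, s, hs, this.2.2⟩

/-- Borsuk-Ulam type theorem. A symmetric cycle `c` on sets with `m + 2` elements, over a ring of
characteristic two, in a free complex admitting an antipodal nowhere zero map to `ℝ^(m+1)`, has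
vanishing alternating sum. -/
theorem bu {k : Type*} [CommRing k] [CharP k 2] (S : Finset (V × Bool) → Prop)
    (hdown : ∀ s t, t ⊆ s → S s → S t)
    (hflip : ∀ s, S s → S (s.map (flipE V).toEmbedding))
    (hinj : ∀ s, S s → Set.InjOn Prod.fst (s : Set (V × Bool)))
    (m : ℕ) (G : (V × Bool → ℝ) → (Fin (m + 1) → ℝ)) (hG : ContinuousOn G (real S))
    (hanti : ∀ y ∈ real S, G (flipL V y) = -G y) (hne : ∀ y ∈ real S, G y ≠ 0)
    (c : Finset (V × Bool) → k) (hc : ∀ s, c s ≠ 0 → S s ∧ s.card = m + 2)
    (hsym : ∀ s, c (s.map (flipE V).toEmbedding) = c s) (hbd : ∀ f, bd c f = 0) :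
    ∑ s, altv k true s * c s = 0 := by
  classical
  have hX := isCompact_real S
  -- lower bound
  obtain ⟨δ, hδ, hδG⟩ : ∃ δ : ℝ, 0 < δ ∧ ∀ y ∈ real S, ∃ j, δ ≤ |G y j| := by
    rcases (real S).eq_empty_or_nonempty with h | h
    · exact ⟨1, one_pos, fun y hy => by rw [h] at hy; exact absurd hy (Set.notMem_empty _)⟩
    · obtain ⟨y₀, hy₀, hmin⟩ := hX.exists_isMinOn h hG.norm
      refine ⟨‖G y₀‖, norm_pos_iff.2 (hne y₀ hy₀), fun y hy => ?_⟩
      by_contra hcon
      push Not at hcon
      have h1 : ‖G y‖ < ‖G y₀‖ := by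
        rw [pi_norm_lt_iff (norm_pos_iff.2 (hne y₀ hy₀))]
        exact fun j => hcon j
      have h2 := hmin hy
      simp only [Set.mem_setOf_eq] at h2
      linarith
  -- uniform continuity
  have hu := hX.uniformContinuousOn_of_continuous hG
  rw [Metric.uniformContinuousOn_iff] at hu
  obtain ⟨η, hη, hηG⟩ := hu δ hδ
  -- number of subdivisions
  set M : ℕ := Fintype.card (V × Bool) with hM
  have hq : (M / (M + 1) : ℝ) < 1 := by
    rw [div_lt_one (by positivity)]; linarith
  obtain ⟨N, hN⟩ := exists_pow_lt_of_lt_one hη hq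
  have hNn : ∀ n : ℕ, n ≤ M → (n / (n + 1) : ℝ) ^ N * 1 < η := by
    intro n hn
    rw [mul_one]
    refine lt_of_le_of_lt ?_ hN
    have hn' : (n : ℝ) ≤ M := by exact_mod_cast hn
    refine pow_le_pow_left₀ (by positivity) ?_ N
    rw [div_le_div_iff₀ (by positivity) (by positivity)]
    nlinarith
  -- labels
  let pick : (Fin (m + 1) → ℝ) → Fin (m + 1) := fun u =>
    Classical.epsilon fun j => δ ≤ |u j|
  have hpick : ∀ y ∈ real S, δ ≤ |G y (pick (G y))| := fun y hy =>
    Classical.epsilon_spec (hδG y hy)
  have hpick_neg : ∀ u : Fin (m + 1) → ℝ, pick (-u) = pick u := by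
    intro u
    simp only [pick, Pi.neg_apply, abs_neg]
  let ℓ : (V × Bool → ℝ) → Fin (m + 1) × Bool := fun y =>
    (pick (G y), decide (0 < G y (pick (G y))))
  have hℓflip : ∀ y ∈ real S, ℓ (flipL V y) = flipE _ (ℓ y) := by
    intro y hy
    have h1 := hpick y hy
    simp only [ℓ, flipE_apply, hanti y hy, hpick_neg, Pi.neg_apply, Prod.mk.injEq, true_and]
    rcases lt_trichotomy (G y (pick (G y))) 0 with h | h | h
    · rw [decide_eq_true (by linarith), decide_eq_false (by linarith)]; rfl
    · rw [h, abs_zero] at h1; linarith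
    · rw [decide_eq_false (by linarith), decide_eq_true (by linarith)]; rfl
  have hℓcomp : ∀ y ∈ real S, ∀ z ∈ real S, dist y z < η → (ℓ y).1 = (ℓ z).1 → ℓ y = ℓ z := by
    intro y hy z hz hyz h
    simp only [ℓ] at h ⊢
    have h1 := hpick y hy
    have h2 := hpick z hz
    have h3 : |G y (pick (G y)) - G z (pick (G y))| < δ := by
      have := hηG y hy z hz hyz
      exact lt_of_le_of_lt (dist_le_pi_dist (G y) (G z) _) this
    rw [h] at h1 h3 ⊢
    rw [Prod.mk.injEq]
    refine ⟨rfl, ?_⟩
    rcases le_or_gt (G y (pick (G z))) 0 with h4 | h4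
    · have h5 : ¬ 0 < G z (pick (G z)) := by
        intro h5
        rw [abs_of_nonpos h4] at h1
        rw [abs_of_pos h5] at h2
        rw [abs_lt] at h3
        linarith [h3.1]
      rw [decide_eq_false (by linarith), decide_eq_false h5]
    · have h5 : 0 < G z (pick (G z)) := by
        by_contra h5
        push Not at h5
        rw [abs_of_pos h4] at h1
        rw [abs_of_nonpos h5] at h2
        rw [abs_lt] at h3
        linarith [h3.2]
      rw [decide_eq_true h4, decide_eq_true h5]
  -- the fine Fan sequence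
  let P : Finset (V × Bool) → List (V × Bool → ℝ) := fun s => (Ls s).map vtx
  let A : Finset (V × Bool) → k := fun s =>
    ((sdi N s.card (P s)).map fun l => altl k true (l.map ℓ)).sum
  have hPlen : ∀ s, (P s).length = s.card := fun s => by simp [P, length_Ls]
  have hPdist : ∀ s, ∀ x ∈ P s, ∀ y ∈ P s, dist x y ≤ 1 := by
    intro s x hx y hy
    simp only [P, List.mem_map] at hx hy
    obtain ⟨x', _, rfl⟩ := hx
    obtain ⟨y', _, rfl⟩ := hy
    exact dist_vtx_le _ _
  have hmem : ∀ s, S s → ∀ l ∈ sdi N s.card (P s), ∀ y ∈ l, y ∈ real S := by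
    intro s hs l hl y hy
    exact mem_real_of_hull hs (fun x hx => mem_Ls.1 hx) (sdi_hull (hPlen s) hl y hy)
  have hclose : ∀ s, S s → ∀ l ∈ sdi N s.card (P s), ∀ y ∈ l, ∀ z ∈ l, dist y z < η := by
    intro s hs l hl y hy z hz
    rcases Nat.eq_zero_or_pos s.card with h | h
    · have := length_of_mem_sdi (hPlen s) hl
      rw [h, List.length_eq_zero_iff] at this
      subst this
      simp at hy
    · obtain ⟨n, hn⟩ := Nat.exists_eq_add_of_lt h
      rw [zero_add] at hn
      have h1 : (P s).length = n + 1 := by rw [hPlen, hn]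
      rw [hn] at hl
      have h2 := sdi_dist h1 (hPdist s) hl y hy z hz
      refine lt_of_le_of_lt h2 (hNn n ?_)
      have : s.card ≤ M := Finset.card_le_univ s
      omega
  have hA0 : A ∅ = 1 := by
    have h1 : ∀ N, sdi N 0 ([] : List (V × Bool → ℝ)) = [[]] := by
      intro N
      induction N with
      | zero => rfl
      | succ N ih => simp [sdi, sdiv, ih]
    simp only [A, P, Finset.card_empty, Ls_empty, List.map_nil, h1]
    simp [altl_of_nodup k true List.nodup_nil, altv_empty]
  have hAfan : ∀ s, S s → s.Nonempty →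
      ∑ x ∈ s, A (s.erase x) = A s + A (s.map (flipE V).toEmbedding) := by
    intro s hs hsne
    obtain ⟨n, hn⟩ := Nat.exists_eq_add_of_lt (Finset.card_pos.2 hsne)
    rw [zero_add] at hn
    have h1 : ∑ x ∈ s, A (s.erase x) =
        fsum (fun l => ((sdi N n (l.map vtx)).map fun l => altl k true (l.map ℓ)).sum) (Ls s) := by
      rw [fsum_Ls _ (hinj s hs)]
      refine Finset.sum_congr rfl fun x hx => ?_
      simp only [A, P, Finset.card_erase_of_mem hx, hn, Nat.add_sub_cancel]
    have h2 : ∑ x ∈ s, A (s.erase x) =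
        fsum (fun l => ((sdi N n l).map fun l => altl k true (l.map ℓ)).sum) (P s) := by
      rw [h1]
      simp only [P, fsum, faces_map, List.map_map, Function.comp_def]
    rw [h2, ← sdi_chain N n _ (P s) (by rw [hPlen, hn])]
    have h3 : A (s.map (flipE V).toEmbedding) =
        ((sdi N (n + 1) (P s)).map fun l => altl k false (l.map ℓ)).sum := by
      have h4 : P (s.map (flipE V).toEmbedding) = (P s).map (flipL V) := by
        simp only [P, Ls_flip (hinj s hs), List.map_map]
        congr 1
        funext x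
        exact vtx_flip x
      simp only [A, h4, Finset.card_map, hn, sdi_map, List.map_map]
      congr 1
      refine List.map_congr_left fun l hl => ?_
      simp only [Function.comp_apply]
      have h5 : (l.map (flipL V)).map ℓ = (l.map ℓ).map (flipE _) := by
        rw [List.map_map, List.map_map]
        refine List.map_congr_left fun y hy => ?_
        exact hℓflip y (hmem s hs l (by rwa [hn]) y hy)
      rw [h5, altl_flip]
      rfl
    rw [h3]
    have h6 : A s = ((sdi N (n + 1) (P s)).map fun l => altl k true (l.map ℓ)).sum := by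
      simp only [A, hn]
    rw [h6, ← sum_map_add']
    congr 1
    refine List.map_congr_left fun l hl => ?_
    have hl' : l ∈ sdi N s.card (P s) := by rwa [hn]
    have h7 : fsum (fun l => altl k true (l.map ℓ)) l = fsum (altl k true) (l.map ℓ) := by
      simp only [fsum, faces_map, List.map_map, Function.comp_def]
    rw [h7, fan_list k (l.map ℓ)]
    · rfl
    · intro h8
      have h9 := length_of_mem_sdi (hPlen s) hl'
      have h10 : l.length = 0 := by
        have := congrArg List.length h8
        simpa using this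
      omega
    · intro x hx y hy hxy
      simp only [List.mem_map] at hx hy
      obtain ⟨x', hx', rfl⟩ := hx
      obtain ⟨y', hy', rfl⟩ := hy
      exact hℓcomp x' (hmem s hs l hl' x' hx') y' (hmem s hs l hl' y' hy')
        (hclose s hs l hl' x' hx' y' hy') hxy
  have hA'fan : ∀ s, S s → s.Nonempty →
      ∑ x ∈ s, altv k true (s.erase x) =
        altv k true s + altv k true (s.map (flipE V).toEmbedding) := by
    intro s hs hsne
    rw [altv_flip]
    exact fan_set k s hsne (hinj s hs) true
  have hcmp := compare (k := k) (flipE V) flipE_flipE S hdown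
    (by
      intro s hs hsne h
      obtain ⟨x, hx⟩ := hsne
      have h1 : flipE V x ∈ s := by
        rw [← h]; simp only [Finset.mem_map, Equiv.coe_toEmbedding]; exact ⟨x, hx, rfl⟩
      have h2 := hinj s hs hx h1 rfl
      have h3 := congrArg Prod.snd h2
      simp at h3)
    A (altv k true) (by rw [hA0, altv_empty]) hAfan hA'fan (m + 2) c hc hsym hbd
  rw [← hcmp]
  refine Finset.sum_eq_zero fun s _ => ?_
  by_cases hs : c s = 0
  · rw [hs, mul_zero]
  · obtain ⟨hS, hcard⟩ := hc s hs
    have : A s = 0 := by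
      simp only [A]
      have h1 : ∀ l ∈ sdi N s.card (P s), altl k true (l.map ℓ) = 0 := by
        intro l hl
        apply altl_eq_zero
        rw [List.length_map, length_of_mem_sdi (hPlen s) hl, hcard]
        omega
      rw [List.map_congr_left h1]
      simp
    rw [this, zero_mul]

end BalShift
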