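import Pool.Agent.Lib.BalShift.Fan

/-!
# Comparison of Fan sequences on a free complex in characteristic two
-/

open Finset

namespace BalShift

variable {W : Type*} [Fintype W] [DecidableEq W] {k : Type*} [CommRing k]

/-- boundary of a chain -/
def bd (c : Finset W → k) (f : Finset W) : k := ∑ x ∈ fᶜ, c (insert x f)

lemma sum_mul_bd (A c : Finset W → k) :
    ∑ f, A f * bd c f = ∑ s, (∑ x ∈ s, A (s.erase x)) * c s := by
  simp only [bd, Finset.mul_sum, Finset.sum_mul]
  rw [Finset.sum_sigma', Finset.sum_sigma']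
  refine Finset.sum_bij' (fun p _ => ⟨insert p.2 p.1, p.2⟩) (fun p _ => ⟨p.1.erase p.2, p.2⟩)
    ?_ ?_ ?_ ?_ ?_
  · rintro ⟨f, x⟩ h
    simp
  · rintro ⟨s, x⟩ h
    simp
  · rintro ⟨f, x⟩ h
    simp only [Finset.mem_sigma, Finset.mem_univ, Finset.mem_compl, true_and] at h
    simp [Finset.erase_insert h]
  · rintro ⟨s, x⟩ h
    simp only [Finset.mem_sigma, Finset.mem_univ, true_and] at h
    simp [Finset.insert_erase h]
  · rintro ⟨f, x⟩ h
    simp only [Finset.mem_sigma, Finset.mem_univ, Finset.mem_compl, true_and] at h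
    simp [Finset.erase_insert h]

lemma bd_bd [CharP k 2] (c : Finset W → k) (f : Finset W) : bd (bd c) f = 0 := by
  simp only [bd]
  rw [Finset.sum_sigma']
  refine Finset.sum_involution (fun p _ => ⟨p.2, p.1⟩) ?_ ?_ ?_ ?_
  · rintro ⟨x, y⟩ _
    simp only
    rw [Finset.insert_comm]
    exact CharTwo.add_self_eq_zero _
  · rintro ⟨x, y⟩ h _ h2
    simp only [Finset.mem_sigma, Finset.mem_compl, Finset.mem_insert, not_or] at h
    simp only [Sigma.mk.injEq, heq_eq_eq] at h2
    exact h.2.1 h2.1
  · rintro ⟨x, y⟩ h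
    simp only [Finset.mem_sigma, Finset.mem_compl, Finset.mem_insert, not_or] at h ⊢
    exact ⟨h.2.2, fun h' => h.2.1 h'.symm, h.1⟩
  · rintro ⟨x, y⟩ _
    rfl

lemma bd_map (ν : W ≃ W) (c : Finset W → k) (f : Finset W) :
    bd c (f.map ν.toEmbedding) = bd (fun s => c (s.map ν.toEmbedding)) f := by
  rw [bd, bd]
  symm
  refine Finset.sum_equiv ν (fun x => ?_) (fun x _ => ?_)
  · simp
  · rw [Finset.map_insert]; rfl

lemma bd_add (c c' : Finset W → k) (f : Finset W) :
    bd (fun s => c s + c' s) f = bd c f + bd c' f := by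
  simp [bd, Finset.sum_add_distrib]

/-- Comparison lemma: two Fan sequences have the same value on symmetric cycles. -/
theorem compare [CharP k 2] (ν : W ≃ W) (hν2 : ∀ x, ν (ν x) = x) (S : Finset W → Prop)
    (hdown : ∀ s t, t ⊆ s → S s → S t)
    (hfree : ∀ s, S s → s.Nonempty → s.map ν.toEmbedding ≠ s)
    (A A' : Finset W → k) (h0 : A ∅ = A' ∅)
    (hA : ∀ s, S s → s.Nonempty → ∑ x ∈ s, A (s.erase x) = A s + A (s.map ν.toEmbedding))
    (hA' : ∀ s, S s → s.Nonempty → ∑ x ∈ s, A' (s.erase x) = A' s + A' (s.map ν.toEmbedding)) :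
    ∀ (n : ℕ) (c : Finset W → k), (∀ s, c s ≠ 0 → S s ∧ s.card = n) →
      (∀ s, c (s.map ν.toEmbedding) = c s) → (∀ f, bd c f = 0) →
      ∑ s, A s * c s = ∑ s, A' s * c s := by
  have h2 : ∀ a : k, a + a = 0 := fun a => CharTwo.add_self_eq_zero a
  have hmm : ∀ s : Finset W, (s.map ν.toEmbedding).map ν.toEmbedding = s := by
    intro s
    ext x
    simp only [Finset.mem_map, Equiv.coe_toEmbedding]
    constructor
    · rintro ⟨_, ⟨y, hy, rfl⟩, rfl⟩
      rwa [hν2]
    · intro hx
      exact ⟨ν x, ⟨x, hx, rfl⟩, hν2 x⟩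
  intro n
  induction n with
  | zero =>
    intro c hc _ _
    refine Finset.sum_congr rfl fun s _ => ?_
    by_cases hs : c s = 0
    · simp [hs]
    · have := (hc s hs).2
      rw [Finset.card_eq_zero] at this
      rw [this, h0]
  | succ n ih =>
    intro c hc hsym hbd
    let enc : Finset W → ℕ := fun s => (Fintype.equivFin (Finset W) s : ℕ)
    have henc : ∀ s t, enc s = enc t → s = t := by
      intro s t h
      exact (Fintype.equivFin (Finset W)).injective (Fin.ext h)
    let b : Finset W → k := fun s => if enc s < enc (s.map ν.toEmbedding) then c s else 0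
    have hcb : ∀ s, c s = b s + b (s.map ν.toEmbedding) := by
      intro s
      by_cases hs : c s = 0
      · simp only [b, hmm, hsym, hs]; simp
      · obtain ⟨hS, hcard⟩ := hc s hs
        have hne : s.map ν.toEmbedding ≠ s := hfree s hS (by
          rw [← Finset.card_pos]; omega)
        simp only [b, hmm, hsym]
        rcases lt_trichotomy (enc s) (enc (s.map ν.toEmbedding)) with h | h | h
        · rw [if_pos h, if_neg (by omega), add_zero]
        · exact absurd (henc _ _ h).symm hne
        · rw [if_neg (by omega), if_pos h, zero_add]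
    have hbS : ∀ s, b s ≠ 0 → S s ∧ s.card = n + 1 := by
      intro s hs
      apply hc s
      intro h
      apply hs
      simp only [b, h]; simp
    have key : ∀ B : Finset W → k,
        (∀ s, S s → s.Nonempty → ∑ x ∈ s, B (s.erase x) = B s + B (s.map ν.toEmbedding)) →
        ∑ s, B s * c s = ∑ f, B f * bd b f := by
      intro B hB
      rw [sum_mul_bd]
      have h3 : ∑ s, B s * c s = ∑ s, B s * b s + ∑ s, B s * b (s.map ν.toEmbedding) := by
        rw [← Finset.sum_add_distrib]
        refine Finset.sum_congr rfl fun s _ => ?_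
        rw [hcb s]; ring
      have h4 : ∑ s, B s * b (s.map ν.toEmbedding) = ∑ s, B (s.map ν.toEmbedding) * b s := by
        refine Finset.sum_bij' (fun s _ => s.map ν.toEmbedding) (fun s _ => s.map ν.toEmbedding)
          ?_ ?_ ?_ ?_ ?_
        · intro s _; simp
        · intro s _; simp
        · intro s _; exact hmm s
        · intro s _; exact hmm s
        · intro s _; rw [hmm]
      rw [h3, h4, ← Finset.sum_add_distrib]
      refine Finset.sum_congr rfl fun s _ => ?_
      by_cases hs : b s = 0
      · simp [hs]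
      · obtain ⟨hS, hcard⟩ := hbS s hs
        rw [hB s hS (by rw [← Finset.card_pos]; omega)]
        ring
    rw [key A hA, key A' hA']
    apply ih
    · intro f hf
      have : ∃ x ∈ fᶜ, b (insert x f) ≠ 0 := by
        by_contra hcon
        push Not at hcon
        exact hf (Finset.sum_eq_zero hcon)
      obtain ⟨x, hx, hbx⟩ := this
      obtain ⟨hS, hcard⟩ := hbS _ hbx
      refine ⟨hdown _ _ (Finset.subset_insert _ _) hS, ?_⟩
      rw [Finset.card_insert_of_notMem (by simpa using hx)] at hcard
      omega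
    · intro f
      rw [bd_map]
      have h5 : bd b f + bd (fun s => b (s.map ν.toEmbedding)) f = 0 := by
        rw [← bd_add, ← hbd f]
        congr 1
        funext s
        exact (hcb s).symm
      have h6 := h2 (bd b f)
      have : bd (fun s => b (s.map ν.toEmbedding)) f =
          bd b f + (bd b f + bd (fun s => b (s.map ν.toEmbedding)) f) := by
        rw [← add_assoc, h6, zero_add]
      rw [this, h5, add_zero]
    · intro f
      exact bd_bd b f

end BalShift
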