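import Pool.Agent.Lib.BalShift.Alg

/-!
# The symmetric cycle of a stress
-/

open Finset

namespace BalShift

variable {V : Type*} {k : Type*} [CommRing k] [Fintype V] [LinearOrder V]

/-- the signed set of a pair of transversals -/
def sc {m : ℕ} (c c' : Fin m → V) : Finset (V × Bool) :=
  Finset.univ.image (fun i => (c i, true)) ∪ Finset.univ.image (fun i => (c' i, false))

/-- weight of a pair of transversals -/
def wt {m : ℕ} (a b : V → k) (l : (Fin m → V) → k) (c c' : Fin m → V) : k :=
  l c * l c' * ∏ i, br a b (c i) (c' i)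

/-- the chain of a stress -/
def zc {m : ℕ} (a b : V → k) (l : (Fin m → V) → k) (s : Finset (V × Bool)) : k :=
  ∑ c : Fin m → V, ∑ c' : Fin m → V, if sc c c' = s then wt a b l c c' else 0

omit [Fintype V] in
lemma mem_sc {m : ℕ} {c c' : Fin m → V} {x : V × Bool} :
    x ∈ sc c c' ↔ (∃ i, x = (c i, true)) ∨ (∃ i, x = (c' i, false)) := by
  simp only [sc, Finset.mem_union, Finset.mem_image, Finset.mem_univ, true_and, eq_comm]

lemma sum_mul_zc {m : ℕ} (a b : V → k) (l : (Fin m → V) → k) (φ : Finset (V × Bool) → k) :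
    ∑ s, φ s * zc a b l s = ∑ c : Fin m → V, ∑ c' : Fin m → V, φ (sc c c') * wt a b l c c' := by
  simp only [zc, Finset.mul_sum]
  rw [Finset.sum_comm]
  refine Finset.sum_congr rfl fun c _ => ?_
  rw [Finset.sum_comm]
  refine Finset.sum_congr rfl fun c' _ => ?_
  simp

omit [Fintype V] in
lemma sc_flip {m : ℕ} (c c' : Fin m → V) : (sc c c').map (flipE V).toEmbedding = sc c' c := by
  ext x
  simp only [Finset.mem_map, mem_sc, Equiv.coe_toEmbedding]
  constructor
  · rintro ⟨y, (⟨i, rfl⟩ | ⟨i, rfl⟩), rfl⟩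
    · exact Or.inr ⟨i, rfl⟩
    · exact Or.inl ⟨i, rfl⟩
  · rintro (⟨i, rfl⟩ | ⟨i, rfl⟩)
    · exact ⟨(c' i, false), Or.inr ⟨i, rfl⟩, rfl⟩
    · exact ⟨(c i, true), Or.inl ⟨i, rfl⟩, rfl⟩

omit [Fintype V] [LinearOrder V] in
lemma wt_comm {m : ℕ} (a b : V → k) (l : (Fin m → V) → k) (c c' : Fin m → V) :
    wt a b l c c' = wt a b l c' c := by
  rw [wt, wt, mul_comm (l c)]
  congr 1
  exact Finset.prod_congr rfl fun i _ => br_comm _ _ _ _

lemma zc_flip {m : ℕ} (a b : V → k) (l : (Fin m → V) → k) (s : Finset (V × Bool)) :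
    zc a b l (s.map (flipE V).toEmbedding) = zc a b l s := by
  rw [zc, zc, Finset.sum_comm]
  refine Finset.sum_congr rfl fun c' _ => Finset.sum_congr rfl fun c _ => ?_
  have : sc c c' = s.map (flipE V).toEmbedding ↔ sc c' c = s := by
    rw [← sc_flip c' c]
    constructor
    · intro h; exact Finset.map_injective _ h
    · intro h; rw [h]
  by_cases h : sc c' c = s
  · rw [if_pos h, if_pos (this.2 h), wt_comm]
  · rw [if_neg h, if_neg (fun h' => h (this.1 h'))]

lemma exists_of_zc {m : ℕ} (a b : V → k) (l : (Fin m → V) → k) {s : Finset (V × Bool)}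
    (h : zc a b l s ≠ 0) : ∃ c c' : Fin m → V, sc c c' = s ∧ wt a b l c c' ≠ 0 := by
  by_contra hcon
  push Not at hcon
  apply h
  refine Finset.sum_eq_zero fun c _ => Finset.sum_eq_zero fun c' _ => ?_
  by_cases h1 : sc c c' = s
  · rw [if_pos h1, hcon c c' h1]
  · rw [if_neg h1]

omit [LinearOrder V] in
/-- regrouping in one coordinate -/
lemma sum_eq_zero_of_update {m : ℕ} (i : Fin m) (F : (Fin m → V) → k)
    (hF : ∀ c, ∑ w, F (Function.update c i w) = 0) : ∑ c, F c = 0 := by
  rcases isEmpty_or_nonempty V with hV | ⟨⟨x⟩⟩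
  · have : IsEmpty (Fin m → V) := ⟨fun c => hV.elim (c i)⟩
    simp
  · have h1 := (Equiv.funSplitAt i V).symm.sum_comp F
    rw [← h1, Fintype.sum_prod_type, Finset.sum_comm]
    refine Finset.sum_eq_zero fun g _ => ?_
    rw [← hF ((Equiv.funSplitAt i V).symm (x, g))]
    refine Finset.sum_congr rfl fun w _ => ?_
    congr 1
    funext j
    by_cases hj : j = i
    · subst hj
      simp [Equiv.funSplitAt, Equiv.piSplitAt]
    · simp [Equiv.funSplitAt, Equiv.piSplitAt, hj]

/-- colour correct transversals -/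
structure Trans {m : ℕ} (color : V → Fin m) (c : Fin m → V) : Prop where
  out : ∀ i, color (c i) = i

omit [Fintype V] [LinearOrder V] in
lemma Trans.inj {m : ℕ} {color : V → Fin m} {c : Fin m → V} (h : Trans color c) :
    Function.Injective c := by
  intro i j hij
  rw [← h.out i, hij, h.out j]

omit [Fintype V] [LinearOrder V] in
lemma Trans.ne {m : ℕ} {color : V → Fin m} {c c' : Fin m → V} (h : Trans color c)
    (h' : Trans color c') (hne : ∀ i, c i ≠ c' i) (i j : Fin m) : c i ≠ c' j := by
  intro hij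
  have : i = j := by rw [← h.out i, hij, h'.out j]
  subst this
  exact hne i hij

variable {m : ℕ} (color : V → Fin m)

/-- faces with one vertex removed -/
def T1 (c c' : Fin m → V) (i : Fin m) : Finset (V × Bool) :=
  (Finset.univ.erase i).image (fun i => (c i, true)) ∪ Finset.univ.image (fun i => (c' i, false))

/-- faces with one vertex removed -/
def T2 (c c' : Fin m → V) (i : Fin m) : Finset (V × Bool) :=
  Finset.univ.image (fun i => (c i, true)) ∪ (Finset.univ.erase i).image (fun i => (c' i, false))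

omit [Fintype V] in
lemma erase_sc1 {c c' : Fin m → V} (hc : Function.Injective c) (i : Fin m) :
    (sc c c').erase (c i, true) = T1 c c' i := by
  ext x
  simp only [Finset.mem_erase, mem_sc, T1, Finset.mem_union, Finset.mem_image, Finset.mem_univ,
    and_true, true_and]
  constructor
  · rintro ⟨hne, (⟨j, rfl⟩ | ⟨j, rfl⟩)⟩
    · exact Or.inl ⟨j, fun h => hne (by rw [h]), rfl⟩
    · exact Or.inr ⟨j, rfl⟩
  · rintro (⟨j, hj, rfl⟩ | ⟨j, rfl⟩)
    · refine ⟨fun h => hj (hc ?_), Or.inl ⟨j, rfl⟩⟩
      simpa using h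
    · exact ⟨by simp, Or.inr ⟨j, rfl⟩⟩

omit [Fintype V] in
lemma erase_sc2 {c c' : Fin m → V} (hc : Function.Injective c') (i : Fin m) :
    (sc c c').erase (c' i, false) = T2 c c' i := by
  ext x
  simp only [Finset.mem_erase, mem_sc, T2, Finset.mem_union, Finset.mem_image, Finset.mem_univ,
    and_true, true_and]
  constructor
  · rintro ⟨hne, (⟨j, rfl⟩ | ⟨j, rfl⟩)⟩
    · exact Or.inl ⟨j, rfl⟩
    · exact Or.inr ⟨j, fun h => hne (by rw [h]), rfl⟩
  · rintro (⟨j, rfl⟩ | ⟨j, hj, rfl⟩)
    · exact ⟨by simp, Or.inl ⟨j, rfl⟩⟩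
    · refine ⟨fun h => hj (hc ?_), Or.inr ⟨j, rfl⟩⟩
      simpa using h

omit [Fintype V] in
lemma sum_erase_sc {c c' : Fin m → V} (hc : Function.Injective c) (hc' : Function.Injective c')
    (A : Finset (V × Bool) → k) :
    ∑ x ∈ sc c c', A ((sc c c').erase x) = ∑ i, A (T1 c c' i) + ∑ i, A (T2 c c' i) := by
  have hd : Disjoint (Finset.univ.image (fun i => (c i, true)))
      (Finset.univ.image (fun i => (c' i, false))) := by
    rw [Finset.disjoint_left]
    intro x hx hx'
    simp only [Finset.mem_image, Finset.mem_univ, true_and] at hx hx'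
    obtain ⟨i, rfl⟩ := hx
    obtain ⟨j, hj⟩ := hx'
    simp at hj
  have h1 : ∑ x ∈ sc c c', A ((sc c c').erase x) =
      ∑ x ∈ Finset.univ.image (fun i => (c i, true)), A ((sc c c').erase x) +
      ∑ x ∈ Finset.univ.image (fun i => (c' i, false)), A ((sc c c').erase x) := by
    conv_lhs => rw [sc]
    exact Finset.sum_union hd
  rw [h1, Finset.sum_image (fun i _ j _ h => hc (by simpa using h)),
    Finset.sum_image (fun i _ j _ h => hc' (by simpa using h))]
  congr 1
  · exact Finset.sum_congr rfl fun i _ => by rw [erase_sc1 hc]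
  · exact Finset.sum_congr rfl fun i _ => by rw [erase_sc2 hc']

omit [Fintype V] in
lemma T1_update (c c' : Fin m → V) (i : Fin m) (w : V) :
    T1 (Function.update c i w) c' i = T1 c c' i := by
  rw [T1, T1]
  congr 1
  refine Finset.image_congr fun j hj => ?_
  simp only [Finset.coe_erase, Finset.coe_univ, Set.mem_sdiff, Set.mem_univ, true_and,
    Set.mem_singleton_iff] at hj
  simp only [Function.update_of_ne hj]

omit [Fintype V] in
lemma T2_update (c c' : Fin m → V) (i : Fin m) (w : V) :
    T2 c (Function.update c' i w) i = T2 c c' i := by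
  rw [T2, T2]
  congr 1
  refine Finset.image_congr fun j hj => ?_
  simp only [Finset.coe_erase, Finset.coe_univ, Set.mem_sdiff, Set.mem_univ, true_and,
    Set.mem_singleton_iff] at hj
  simp only [Function.update_of_ne hj]

omit [LinearOrder V] in
lemma sum_wt_update (a b : V → k) (l : (Fin m → V) → k) (hl : Stress a b l) (c c' : Fin m → V)
    (i : Fin m) : ∑ w, wt a b l (Function.update c i w) c' = 0 := by
  have h1 : ∀ w, wt a b l (Function.update c i w) c' =
      (l (Function.update c i w) * a w) *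
        (l c' * b (c' i) * ∏ j ∈ Finset.univ.erase i, br a b (c j) (c' j)) +
      (l (Function.update c i w) * b w) *
        (l c' * a (c' i) * ∏ j ∈ Finset.univ.erase i, br a b (c j) (c' j)) := by
    intro w
    rw [wt, ← Finset.mul_prod_erase Finset.univ _ (Finset.mem_univ i)]
    have : ∏ j ∈ Finset.univ.erase i, br a b (Function.update c i w j) (c' j) =
        ∏ j ∈ Finset.univ.erase i, br a b (c j) (c' j) := by
      refine Finset.prod_congr rfl fun j hj => ?_
      rw [Function.update_of_ne (Finset.ne_of_mem_erase hj)]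
    rw [this, Function.update_self, br]
    ring
  simp only [h1, Finset.sum_add_distrib, ← Finset.sum_mul, (hl i c).1, (hl i c).2]
  ring

lemma bd_zc (a b : V → k) (l : (Fin m → V) → k) (hl : Stress a b l)
    (hcol : ∀ c, l c ≠ 0 → Trans color c) (f : Finset (V × Bool)) : bd (zc a b l) f = 0 := by
  set A : Finset (V × Bool) → k := fun s => if s = f then 1 else 0 with hA
  have h1 : bd (zc a b l) f = ∑ s, A s * bd (zc a b l) s := by simp [hA]
  rw [h1, sum_mul_bd, sum_mul_zc a b l fun s => ∑ x ∈ s, A (s.erase x)]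
  have h2 : ∀ c c' : Fin m → V, (∑ x ∈ sc c c', A ((sc c c').erase x)) * wt a b l c c' =
      ∑ i, A (T1 c c' i) * wt a b l c c' + ∑ i, A (T2 c c' i) * wt a b l c c' := by
    intro c c'
    by_cases h : wt a b l c c' = 0
    · simp [h]
    · have hc : l c ≠ 0 := by
        intro h0; apply h; rw [wt, h0]; ring
      have hc' : l c' ≠ 0 := by
        intro h0; apply h; rw [wt, h0]; ring
      rw [sum_erase_sc (hcol c hc).inj (hcol c' hc').inj, add_mul, Finset.sum_mul, Finset.sum_mul]
  simp only [h2, Finset.sum_add_distrib]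
  have h3 : ∑ c : Fin m → V, ∑ c' : Fin m → V, ∑ i, A (T1 c c' i) * wt a b l c c' = 0 := by
    rw [Finset.sum_comm]
    refine Finset.sum_eq_zero fun c' _ => ?_
    rw [Finset.sum_comm]
    refine Finset.sum_eq_zero fun i _ => ?_
    apply sum_eq_zero_of_update i
    intro c
    simp only [T1_update, ← Finset.mul_sum]
    rw [sum_wt_update a b l hl, mul_zero]
  have h4 : ∑ c : Fin m → V, ∑ c' : Fin m → V, ∑ i, A (T2 c c' i) * wt a b l c c' = 0 := by
    refine Finset.sum_eq_zero fun c _ => ?_
    rw [Finset.sum_comm]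
    refine Finset.sum_eq_zero fun i _ => ?_
    apply sum_eq_zero_of_update i
    intro c'
    simp only [T2_update, ← Finset.mul_sum, wt_comm a b l c]
    rw [sum_wt_update a b l hl, mul_zero]
  rw [h3, h4, add_zero]

omit [Fintype V] in
/-- the alternation of the signed set of a pair of transversals -/
lemma altv_sc (c c' : Fin m → V) (h1 : ∀ i j, i < j → c i < c j) (h2 : ∀ i j, i < j → c i < c' j)
    (h3 : ∀ i j, i < j → c' i < c j) (h4 : ∀ i j, i < j → c' i < c' j) (hne : ∀ i, c i ≠ c' i) :
    altv k true (sc c c') = if ∀ i, c i < c' i then 1 else 0 := by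
  induction m with
  | zero =>
    have : sc c c' = ∅ := by
      rw [sc]; simp
    rw [this, altv_empty, if_pos]
    intro i; exact i.elim0
  | succ m ih =>
    have e1 : sc c c' = insert (c 0, true) (insert (c' 0, false)
        (sc (fun i => c (Fin.succ i)) (fun i => c' (Fin.succ i)))) := by
      ext x
      simp only [mem_sc, Finset.mem_insert, Fin.exists_fin_succ]
      tauto
    have e2 := ih (fun i => c (Fin.succ i)) (fun i => c' (Fin.succ i))
      (fun i j h => h1 _ _ (Fin.succ_lt_succ_iff.2 h)) (fun i j h => h2 _ _ (Fin.succ_lt_succ_iff.2 h))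
      (fun i j h => h3 _ _ (Fin.succ_lt_succ_iff.2 h)) (fun i j h => h4 _ _ (Fin.succ_lt_succ_iff.2 h))
      (fun i => hne _)
    set s' := sc (fun i => c (Fin.succ i)) (fun i => c' (Fin.succ i)) with hs'
    have e3 : ∀ y ∈ s', c 0 < y.1 := by
      intro y hy
      rw [hs', mem_sc] at hy
      rcases hy with ⟨i, rfl⟩ | ⟨i, rfl⟩
      · exact h1 _ _ (Fin.succ_pos i)
      · exact h2 _ _ (Fin.succ_pos i)
    have e4 : ∀ y ∈ s', c' 0 < y.1 := by
      intro y hy
      rw [hs', mem_sc] at hy
      rcases hy with ⟨i, rfl⟩ | ⟨i, rfl⟩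
      · exact h3 _ _ (Fin.succ_pos i)
      · exact h4 _ _ (Fin.succ_pos i)
    have hiff : (∀ i, c i < c' i) ↔ c 0 < c' 0 ∧ ∀ i : Fin m, c (Fin.succ i) < c' (Fin.succ i) :=
      Fin.forall_fin_succ
    rcases lt_or_gt_of_ne (hne 0) with h | h
    · rw [e1, altv_insert_min k (x := (c 0, true)), altv_insert_min k (x := (c' 0, false))]
      · simp only [if_true, Bool.not_true, Bool.not_false]
        rw [e2]
        by_cases h' : ∀ i : Fin m, c (Fin.succ i) < c' (Fin.succ i)
        · rw [if_pos h', if_pos (hiff.2 ⟨h, h'⟩)]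
        · rw [if_neg h', if_neg (fun h5 => h' (hiff.1 h5).2)]
      · exact e4
      · intro y hy
        rw [Finset.mem_insert] at hy
        rcases hy with rfl | hy
        · exact h
        · exact e3 y hy
    · rw [e1, Finset.insert_comm, altv_insert_min k (x := (c' 0, false)), if_neg (by simp),
        if_neg]
      · intro h5
        exact absurd (hiff.1 h5).1 (not_lt.2 h.le)
      · intro y hy
        rw [Finset.mem_insert] at hy
        rcases hy with rfl | hy
        · exact h
        · exact e4 y hy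

/-- the alternating value of the cycle of a stress -/
theorem altv_zc [CharP k 2] (hmono : ∀ u v, color u < color v → u < v) (a b : V → k)
    (l : (Fin m → V) → k) (hl : Stress a b l) (hcol : ∀ c, l c ≠ 0 → Trans color c) :
    ∑ s, altv k true s * zc a b l s = ∑ c, l c ^ 2 * ∏ i, (a (c i) * b (c i)) := by
  rw [sum_mul_zc, ← Bf_self a b l hl, Bf]
  refine Finset.sum_congr rfl fun c _ => Finset.sum_congr rfl fun c' _ => ?_
  by_cases h : wt a b l c c' = 0
  · rw [h, mul_zero]
    rw [wt] at h
    rw [h]; simp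
  · have hc : Trans color c := hcol _ (by
      intro h0; apply h; rw [wt, h0]; ring)
    have hc' : Trans color c' := hcol _ (by
      intro h0; apply h; rw [wt, h0]; ring)
    have hne : ∀ i, c i ≠ c' i := by
      intro i hi
      apply h
      rw [wt, Finset.prod_eq_zero (Finset.mem_univ i), mul_zero]
      rw [hi, br_self]
    rw [altv_sc]
    · rw [wt, ite_mul, one_mul, zero_mul]
    · exact fun i j hij => hmono _ _ (by rwa [hc.out, hc.out])
    · exact fun i j hij => hmono _ _ (by rwa [hc.out, hc'.out])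
    · exact fun i j hij => hmono _ _ (by rwa [hc'.out, hc.out])
    · exact fun i j hij => hmono _ _ (by rwa [hc'.out, hc'.out])
    · exact hne

end BalShift
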