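import Mathlib

/-!
# Definitions for balanced shifting (Babson-Novik)
-/

open Finset

namespace BalShift

/-- A simplicial complex: a family of finite sets of vertices, containing the empty set and
closed under passing to subsets. -/
structure SComplex (V : Type*) where
  faces : Set (Finset V)
  empty_mem : ∅ ∈ faces
  down_closed : ∀ s ∈ faces, ∀ t, t ⊆ s → t ∈ faces

variable {V : Type*} [Fintype V] [LinearOrder V] {d : ℕ}

omit [Fintype V] [LinearOrder V] in
/-- Every face has at most one vertex of each colour. -/
def SComplex.Balanced (K : SComplex V) (color : V → Fin (d + 1)) : Prop :=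
  ∀ s ∈ K.faces, Set.InjOn color (s : Set V)

/-- The geometric realisation, in barycentric coordinates. -/
def SComplex.realization (K : SComplex V) : Set (V → ℝ) :=
  {x | (∀ v, 0 ≤ x v) ∧ ∑ v, x v = 1 ∧ (Finset.univ.filter fun v => x v ≠ 0) ∈ K.faces}

/-- `K` is topologically embeddable in the sphere of dimension `n`. -/
def SComplex.EmbedsInSphere (K : SComplex V) (n : ℕ) : Prop :=
  ∃ f : K.realization → Metric.sphere (0 : EuclideanSpace ℝ (Fin (n + 1))) 1,
    Topology.IsEmbedding f

/-- The order of `V` is `(l, …, l)`-admissible: the `l` smallest vertices of each colour class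
together form an initial segment. -/
def Admissible (color : V → Fin (d + 1)) (l : ℕ) : Prop :=
  IsLowerSet {v : V | (Finset.univ.filter fun u => color u = color v ∧ u < v).card < l}

omit [Fintype V] [LinearOrder V] in
/-- The Stanley-Reisner ideal of `K`. -/
noncomputable def SComplex.ideal (K : SComplex V) : Ideal (MvPolynomial V ℝ) :=
  Ideal.span {p | ∃ s : Finset V, s ∉ K.faces ∧ p = ∏ v ∈ s, MvPolynomial.X v}

omit [Fintype V] [LinearOrder V] in
/-- The Stanley-Reisner ring of `K`. -/
noncomputable abbrev SComplex.ring (K : SComplex V) : Type _ := MvPolynomial V ℝ ⧸ K.ideal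

omit [LinearOrder V] in
/-- The linear form `θ_v`, a combination of the variables of the colour of `v`, with coefficients
`Θ v w`. -/
noncomputable def SComplex.theta (K : SComplex V) (color : V → Fin (d + 1)) (Θ : V → V → ℝ)
    (v : V) : K.ring :=
  Ideal.Quotient.mk K.ideal
    (∑ w ∈ Finset.univ.filter (fun w => color w = color v),
      MvPolynomial.C (Θ v w) * MvPolynomial.X w)

omit [LinearOrder V] in
/-- The product `θ_F` of the `θ_v`, `v ∈ F`. -/
noncomputable def SComplex.thetaF (K : SComplex V) (color : V → Fin (d + 1)) (Θ : V → V → ℝ)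
    (F : Finset V) : K.ring :=
  ∏ v ∈ F, K.theta color Θ v

omit [Fintype V] in
/-- `F` comes before `G` in the lexicographic order (on sets of the same cardinality). -/
def LexLT (F G : Finset V) : Prop :=
  ∃ v ∈ F, v ∉ G ∧ ∀ u, u < v → (u ∈ F ↔ u ∈ G)

/-- The balanced shifting of `K`, computed with the coefficients `Θ`: all sets `F` with at most
one vertex of each colour such that `θ_F` is not in the span of the `θ_G`, where `G` has exactly
the same colours as `F` and comes before `F` in the lexicographic order. -/
def SComplex.shift (K : SComplex V) (color : V → Fin (d + 1)) (Θ : V → V → ℝ) :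
    Set (Finset V) :=
  {F | Set.InjOn color (F : Set V) ∧
    K.thetaF color Θ F ∉ Submodule.span ℝ (K.thetaF color Θ ''
      {G | Set.InjOn color (G : Set V) ∧ G.image color = F.image color ∧ LexLT G F})}

omit [Fintype V] in
/-- The family `L` contains a subcomplex isomorphic to `[3]^{*(d+1)}`, the join of `d + 1` copies
of the complex of three points. Its vertices are the pairs `(i, a)`, `i < d + 1`, `a < 3`, and its
faces are the sets with at most one element in each copy. -/
def ContainsJoin (d : ℕ) (L : Set (Finset V)) : Prop :=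
  ∃ φ : Fin (d + 1) × Fin 3 → V, Function.Injective φ ∧
    ∀ s : Finset (Fin (d + 1) × Fin 3), Set.InjOn Prod.fst (s : Set (Fin (d + 1) × Fin 3)) →
      s.image φ ∈ L

/-- The index set of the entries of the matrices `Θ_i`: pairs of vertices of the same colour. -/
abbrev Ent (color : V → Fin (d + 1)) : Type _ := {p : V × V // color p.1 = color p.2}

omit [Fintype V] in
lemma LexLT.irrefl (F : Finset V) : ¬ LexLT F F := by
  rintro ⟨v, h1, h2, _⟩
  exact h2 h1

omit [Fintype V] in
lemma LexLT.trans {F G H : Finset V} (h1 : LexLT F G) (h2 : LexLT G H) : LexLT F H := by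
  obtain ⟨v, hvF, hvG, hv⟩ := h1
  obtain ⟨w, hwG, hwH, hw⟩ := h2
  rcases lt_trichotomy v w with h | h | h
  · exact ⟨v, hvF, fun h3 => hvG ((hw v h).2 h3), fun u hu => (hv u hu).trans (hw u (hu.trans h))⟩
  · subst h; exact absurd hwG hvG
  · exact ⟨w, (hv w h).2 hwG, hwH, fun u hu => (hv u (hu.trans h)).trans (hw u hu)⟩

/-- The sets of `K.shift` are exactly those kept by the greedy procedure: `F` is kept if and only
if `θ_F` is not in the span of the `θ_G` with `G` kept, of the same colours as `F` and before `F`
in the lexicographic order. -/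
theorem SComplex.mem_shift_iff_greedy (K : SComplex V) (color : V → Fin (d + 1)) (Θ : V → V → ℝ)
    (F : Finset V) : F ∈ K.shift color Θ ↔ Set.InjOn color (F : Set V) ∧
      K.thetaF color Θ F ∉ Submodule.span ℝ (K.thetaF color Θ ''
        {G | G ∈ K.shift color Θ ∧ G.image color = F.image color ∧ LexLT G F}) := by
  have key : ∀ F : Finset V, Submodule.span ℝ (K.thetaF color Θ ''
      {G | Set.InjOn color (G : Set V) ∧ G.image color = F.image color ∧ LexLT G F}) =
      Submodule.span ℝ (K.thetaF color Θ ''
        {G | G ∈ K.shift color Θ ∧ G.image color = F.image color ∧ LexLT G F}) := by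
    have wf : WellFounded (LexLT (V := V)) := by
      have : IsTrans (Finset V) LexLT := ⟨fun _ _ _ => LexLT.trans⟩
      have : Std.Irrefl (LexLT (V := V)) := ⟨LexLT.irrefl⟩
      exact Finite.wellFounded_of_trans_of_irrefl _
    intro F
    induction F using wf.induction with
    | _ F ih =>
      apply le_antisymm
      · rw [Submodule.span_le]
        rintro _ ⟨G, ⟨hG1, hG2, hG3⟩, rfl⟩
        by_cases hG : G ∈ K.shift color Θ
        · exact Submodule.subset_span ⟨G, ⟨hG, hG2, hG3⟩, rfl⟩
        · have h1 : K.thetaF color Θ G ∈ Submodule.span ℝ (K.thetaF color Θ ''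
              {H | Set.InjOn color (H : Set V) ∧ H.image color = G.image color ∧ LexLT H G}) := by
            by_contra h
            exact hG ⟨hG1, h⟩
          rw [ih G hG3] at h1
          refine Submodule.span_mono ?_ h1
          rintro _ ⟨H, ⟨hH1, hH2, hH3⟩, rfl⟩
          exact ⟨H, ⟨hH1, hH2.trans hG2, hH3.trans hG3⟩, rfl⟩
      · apply Submodule.span_mono
        rintro _ ⟨H, ⟨hH1, hH2, hH3⟩, rfl⟩
        exact ⟨H, ⟨hH1.1, hH2, hH3⟩, rfl⟩
  rw [← key F]
  rfl

end BalShift
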