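import Mathlib

/-!
# Elimination of the invertible factors of a tensor product
-/

open Finset

namespace BalShift

lemma sum_update {V k : Type*} [Fintype V] [DecidableEq V] [CommRing k] {m : ℕ} (i : Fin m)
    (G : Fin m → V) (F : (Fin m → V) → k) :
    ∑ w, F (Function.update G i w) =
      ∑ c, F c * ∏ j ∈ Finset.univ.erase i, (if G j = c j then (1 : k) else 0) := by
  have h1 : ∀ w, F (Function.update G i w) =
      ∑ c, if c = Function.update G i w then F c else 0 := by
    intro w; simp
  simp only [h1]
  rw [Finset.sum_comm]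
  refine Finset.sum_congr rfl fun c _ => ?_
  rw [Finset.prod_ite_zero]
  simp only [Finset.prod_const_one, Finset.mem_erase, Finset.mem_univ, and_true]
  by_cases h : ∀ j, j ≠ i → G j = c j
  · rw [if_pos h, mul_one, Finset.sum_eq_single (c i)]
    · rw [if_pos]
      funext j
      by_cases hj : j = i
      · subst hj; simp
      · rw [Function.update_of_ne hj, h j hj]
    · intro w _ hw
      rw [if_neg]
      intro h2
      apply hw
      rw [h2]; simp
    · intro h2; exact absurd (Finset.mem_univ _) h2
  · rw [if_neg h, mul_zero]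
    refine Finset.sum_eq_zero fun w _ => ?_
    rw [if_neg]
    intro h2
    apply h
    intro j hj
    rw [h2, Function.update_of_ne hj]

lemma elim_factors {V k : Type*} [Fintype V] [DecidableEq V] [CommRing k] {m : ℕ}
    (T N : Matrix V V k) (hNT : N * T = 1) (Λ : (Fin m → V) → k) (i : Fin m) (v : V)
    (h : ∀ g : Fin m → V, g i = v → ∑ c, Λ c * ∏ j, T (g j) (c j) = 0) (G : Fin m → V) :
    ∑ w, Λ (Function.update G i w) * T v w = 0 := by
  set r : Fin m → V → k := fun j u => if j = i then (if u = v then 1 else 0) else N (G j) u with hr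
  have h0 : ∑ g : Fin m → V, (∏ j, r j (g j)) * ∑ c, Λ c * ∏ j, T (g j) (c j) = 0 := by
    refine Finset.sum_eq_zero fun g _ => ?_
    by_cases hg : g i = v
    · rw [h g hg, mul_zero]
    · rw [Finset.prod_eq_zero (Finset.mem_univ i), zero_mul]
      simp only [hr, if_true, if_neg hg]
  have h1 : ∑ g : Fin m → V, (∏ j, r j (g j)) * ∑ c, Λ c * ∏ j, T (g j) (c j) =
      ∑ c, Λ c * ∏ j, ∑ u, r j u * T u (c j) := by
    simp only [Finset.mul_sum]
    rw [Finset.sum_comm]
    refine Finset.sum_congr rfl fun c _ => ?_
    rw [Finset.prod_univ_sum, Fintype.piFinset_univ, Finset.mul_sum]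
    refine Finset.sum_congr rfl fun g _ => ?_
    rw [Finset.prod_mul_distrib]
    ring
  have h2 : ∀ c : Fin m → V, ∏ j, ∑ u, r j u * T u (c j) =
      T v (c i) * ∏ j ∈ Finset.univ.erase i, (if G j = c j then (1 : k) else 0) := by
    intro c
    rw [← Finset.mul_prod_erase Finset.univ _ (Finset.mem_univ i)]
    congr 1
    · simp [hr]
    · refine Finset.prod_congr rfl fun j hj => ?_
      have hj' := Finset.ne_of_mem_erase hj
      simp only [hr, if_neg hj']
      have := congrFun (congrFun hNT (G j)) (c j)
      rw [Matrix.mul_apply] at this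
      rw [this, Matrix.one_apply]
  rw [h1] at h0
  simp only [h2] at h0
  have h3 := sum_update i G fun c => Λ c * T v (c i)
  simp only [Function.update_self] at h3
  rw [h3]
  refine Eq.trans (Finset.sum_congr rfl fun c _ => ?_) h0
  ring

end BalShift
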