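import Pool.Agent.Lib.BalShift.BU

/-!
# The antipodal map of an embedding into a sphere
-/

open Finset

namespace BalShift

section cone

variable {V : Type*} [Fintype V] {E : Type*} [NormedAddCommGroup E] [NormedSpace ℝ E]

/-- cone over the geometric realisation -/
def cone (K : Finset V → Prop) : Set (V → ℝ) :=
  {x | (∀ v, 0 ≤ x v) ∧ ∃ s, K s ∧ ∀ v, x v ≠ 0 → v ∈ s}

/-- homogeneous extension -/
noncomputable def hom (f : (V → ℝ) → E) (x : V → ℝ) : E :=
  (∑ v, x v) • f ((∑ v, x v)⁻¹ • x)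

lemma normalize_mem {K : Finset V → Prop} {x : V → ℝ} (hx : x ∈ cone K) (h : ∑ v, x v ≠ 0) :
    (∑ v, x v)⁻¹ • x ∈ real K := by
  have hpos : 0 ≤ ∑ v, x v := Finset.sum_nonneg fun v _ => hx.1 v
  refine ⟨fun v => ?_, ?_, ?_⟩
  · have := hx.1 v
    simp only [Pi.smul_apply, smul_eq_mul]
    positivity
  · simp only [Pi.smul_apply, smul_eq_mul, ← Finset.mul_sum]
    exact inv_mul_cancel₀ h
  · obtain ⟨s, hs, hs'⟩ := hx.2
    refine ⟨s, hs, fun v hv => hs' v fun h0 => hv ?_⟩
    simp [h0]

lemma norm_hom {K : Finset V → Prop} {f : (V → ℝ) → E} (hf : ∀ y ∈ real K, ‖f y‖ = 1)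
    {x : V → ℝ} (hx : x ∈ cone K) : ‖hom f x‖ = ∑ v, x v := by
  have hpos : 0 ≤ ∑ v, x v := Finset.sum_nonneg fun v _ => hx.1 v
  by_cases h : ∑ v, x v = 0
  · rw [hom, h, zero_smul, norm_zero]
  · rw [hom, norm_smul, hf _ (normalize_mem hx h), mul_one, Real.norm_of_nonneg hpos]

lemma continuousOn_hom {K : Finset V → Prop} {f : (V → ℝ) → E} (hc : ContinuousOn f (real K))
    (hf : ∀ y ∈ real K, ‖f y‖ = 1) : ContinuousOn (hom f) (cone K) := by
  intro x hx
  have hsum : Continuous fun x : V → ℝ => ∑ v, x v := by fun_prop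
  by_cases h : ∑ v, x v = 0
  · -- the apex
    have h0 : hom f x = 0 := by rw [hom, h, zero_smul]
    rw [ContinuousWithinAt, h0]
    rw [tendsto_zero_iff_norm_tendsto_zero]
    have h1 : Filter.Tendsto (fun x : V → ℝ => ∑ v, x v) (nhdsWithin x (cone K)) (nhds 0) := by
      have := hsum.continuousWithinAt (s := cone K) (x := x)
      rwa [ContinuousWithinAt, h] at this
    refine h1.congr' ?_
    filter_upwards [self_mem_nhdsWithin] with y hy
    rw [norm_hom hf hy]
  · have h1 : ContinuousWithinAt (fun y : V → ℝ => (∑ v, y v)⁻¹ • y)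
        (cone K ∩ {y | ∑ v, y v ≠ 0}) x :=
      ((hsum.continuousWithinAt).inv₀ h).smul continuousWithinAt_id
    have h2 : ContinuousWithinAt f (real K) ((∑ v, x v)⁻¹ • x) := hc _ (normalize_mem hx h)
    have h3 : Set.MapsTo (fun y : V → ℝ => (∑ v, y v)⁻¹ • y)
        (cone K ∩ {y | ∑ v, y v ≠ 0}) (real K) := fun y hy => normalize_mem hy.1 hy.2
    have h4 : ContinuousWithinAt (fun y => f ((∑ v, y v)⁻¹ • y))
        (cone K ∩ {y | ∑ v, y v ≠ 0}) x :=
      ContinuousWithinAt.comp (t := real K) h2 h1 h3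
    have h5 : ContinuousWithinAt (hom f) (cone K ∩ {y | ∑ v, y v ≠ 0}) x :=
      (hsum.continuousWithinAt).smul h4
    have h6 : {y : V → ℝ | ∑ v, y v ≠ 0} ∈ nhds x :=
      (isOpen_ne_fun hsum continuous_const).mem_nhds h
    exact (continuousWithinAt_inter h6).1 h5

end cone

variable {V : Type*} [Fintype V] [LinearOrder V]

/-- the deleted join of `K` -/
def dj (K : Finset V → Prop) (s : Finset (V × Bool)) : Prop :=
  (∀ v, ¬ ((v, true) ∈ s ∧ (v, false) ∈ s)) ∧
    ∀ e : Bool, ∃ t, K t ∧ ∀ v, (v, e) ∈ s → v ∈ t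

omit [Fintype V] [LinearOrder V] in
lemma dj_down (K : Finset V → Prop) (s t : Finset (V × Bool)) (h : t ⊆ s) (hs : dj K s) :
    dj K t := by
  refine ⟨fun v hv => hs.1 v ⟨h hv.1, h hv.2⟩, fun e => ?_⟩
  obtain ⟨u, hu, hu'⟩ := hs.2 e
  exact ⟨u, hu, fun v hv => hu' v (h hv)⟩

omit [Fintype V] [LinearOrder V] in
lemma dj_inj (K : Finset V → Prop) (s : Finset (V × Bool)) (hs : dj K s) :
    Set.InjOn Prod.fst (s : Set (V × Bool)) := by
  rintro ⟨v, e⟩ hx ⟨w, e'⟩ hy hxy
  simp only at hxy
  subst hxy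
  have := hs.1 v
  cases e <;> cases e'
  · rfl
  · exact absurd ⟨hy, hx⟩ this
  · exact absurd ⟨hx, hy⟩ this
  · rfl

omit [Fintype V] [LinearOrder V] in
lemma dj_flip (K : Finset V → Prop) (s : Finset (V × Bool)) (hs : dj K s) :
    dj K (s.map (flipE V).toEmbedding) := by
  have h : ∀ v e, (v, e) ∈ s.map (flipE V).toEmbedding ↔ (v, !e) ∈ s := by
    intro v e
    simp only [Finset.mem_map, Equiv.coe_toEmbedding]
    constructor
    · rintro ⟨x, hx, hx'⟩
      rw [flipE_apply, Prod.mk.injEq] at hx'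
      obtain ⟨rfl, rfl⟩ := hx'
      simpa using hx
    · intro h
      exact ⟨(v, !e), h, by simp⟩
  refine ⟨fun v hv => ?_, fun e => ?_⟩
  · rw [h, h] at hv
    exact hs.1 v ⟨hv.2, hv.1⟩
  · obtain ⟨u, hu, hu'⟩ := hs.2 (!e)
    exact ⟨u, hu, fun v hv => hu' v ((h v e).1 hv)⟩

/-- one of the two halves -/
def half (e : Bool) (y : V × Bool → ℝ) : V → ℝ := fun v => y (v, e)

omit [LinearOrder V] in
lemma half_mem {K : Finset V → Prop} {y : V × Bool → ℝ} (hy : y ∈ real (dj K)) (e : Bool) :
    half e y ∈ cone K := by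
  obtain ⟨h1, _, s, hs, h3⟩ := hy
  refine ⟨fun v => h1 _, ?_⟩
  obtain ⟨t, ht, ht'⟩ := hs.2 e
  exact ⟨t, ht, fun v hv => ht' v (h3 _ hv)⟩

/-- no symmetric cycle with non zero alternating value when `K` embeds in a sphere -/
theorem embed {k : Type*} [CommRing k] [CharP k 2] (K : Finset V → Prop) (n : ℕ)
    (f : (V → ℝ) → EuclideanSpace ℝ (Fin (n + 1))) (hc : ContinuousOn f (real K))
    (hinj : Set.InjOn f (real K)) (hf : ∀ y ∈ real K, ‖f y‖ = 1)
    (c : Finset (V × Bool) → k) (hcS : ∀ s, c s ≠ 0 → dj K s ∧ s.card = n + 2)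
    (hsym : ∀ s, c (s.map (flipE V).toEmbedding) = c s) (hbd : ∀ f, bd c f = 0) :
    ∑ s, altv k true s * c s = 0 := by
  have hhalf : ∀ e : Bool, ContinuousOn (fun y => hom f (half e y)) (real (dj K)) := by
    intro e
    have h1 : Continuous fun y : V × Bool → ℝ => half e y := by
      unfold half; fun_prop
    exact (continuousOn_hom hc hf).comp h1.continuousOn fun y hy => half_mem hy e
  have hsum : ∀ y : V × Bool → ℝ, y ∈ real (dj K) →
      ∑ v, half true y v + ∑ v, half false y v = 1 := by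
    intro y hy
    rw [← hy.2.1, Fintype.sum_prod_type, ← Finset.sum_add_distrib]
    refine Finset.sum_congr rfl fun v _ => ?_
    simp [half]
  refine bu (dj K) (dj_down K) (dj_flip K) (dj_inj K) n
    (fun y j => (hom f (half true y) - hom f (half false y)) j) ?_ ?_ ?_ c hcS hsym hbd
  · have h1 := (hhalf true).sub (hhalf false)
    have h2 : Continuous fun (u : EuclideanSpace ℝ (Fin (n + 1))) (j : Fin (n + 1)) => u j := by
      fun_prop
    exact h2.comp_continuousOn h1
  · intro y _
    funext j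
    have h1 : half true (flipL V y) = half false y := by
      funext v; simp [half]
    have h2 : half false (flipL V y) = half true y := by
      funext v; simp [half]
    simp only [h1, h2, Pi.neg_apply, PiLp.sub_apply]
    ring
  · intro y hy h0
    have h1 : hom f (half true y) = hom f (half false y) := by
      rw [← sub_eq_zero]
      ext j
      exact congrFun h0 j
    have h2 := half_mem hy true
    have h3 := half_mem hy false
    have h4 : ∑ v, half true y v = ∑ v, half false y v := by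
      rw [← norm_hom hf h2, ← norm_hom hf h3, h1]
    have h5 := hsum y hy
    have h6 : ∑ v, half true y v ≠ 0 := by
      intro h; rw [← h4, h] at h5; norm_num at h5
    have h7 : ∑ v, half false y v ≠ 0 := by rw [← h4]; exact h6
    rw [hom, hom, ← h4] at h1
    have h8 := smul_right_injective _ h6 h1
    have h9 : (∑ v, half true y v)⁻¹ • half true y = (∑ v, half true y v)⁻¹ • half false y := by
      refine hinj (normalize_mem h2 h6) ?_ h8
      have := normalize_mem h3 h7
      rwa [← h4] at this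
    have h10 : half true y = half false y := smul_right_injective _ (inv_ne_zero h6) h9
    obtain ⟨v, hv⟩ : ∃ v, half true y v ≠ 0 := by
      by_contra hcon
      push Not at hcon
      exact h6 (Finset.sum_eq_zero fun v _ => hcon v)
    obtain ⟨_, _, s, hs, h11⟩ := hy
    refine hs.1 v ⟨h11 _ hv, h11 _ ?_⟩
    rw [h10] at hv
    exact hv

end BalShift
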