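import Pool.Agent.Lib.BalShift.Sq
import Pool.Agent.Lib.BalShift.Map

/-!
# No stresses in characteristic two for complexes embedded in the sphere of dimension `2 d`
-/

open Finset

namespace BalShift

lemma dj_sc {V : Type*} [LinearOrder V] {m : ℕ} {color : V → Fin m} {K : Finset V → Prop}
    {c c' : Fin m → V} (hc : Trans color c) (hc' : Trans color c') (hne : ∀ i, c i ≠ c' i)
    (hK : ∃ s, K s ∧ ∀ i, c i ∈ s) (hK' : ∃ s, K s ∧ ∀ i, c' i ∈ s) : dj K (sc c c') := by
  refine ⟨fun v hv => ?_, fun e => ?_⟩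
  · rw [mem_sc, mem_sc] at hv
    rcases hv with ⟨⟨i, hi⟩ | ⟨i, hi⟩, ⟨j, hj⟩ | ⟨j, hj⟩⟩
    · simp at hj
    · simp only [Prod.mk.injEq, and_true] at hi hj
      exact hc.ne hc' hne i j (by rw [← hi, ← hj])
    · simp at hi
    · simp at hi
  · cases e
    · obtain ⟨s, hs, hs'⟩ := hK'
      refine ⟨s, hs, fun v hv => ?_⟩
      rw [mem_sc] at hv
      rcases hv with ⟨i, hi⟩ | ⟨i, hi⟩
      · simp at hi
      · simp only [Prod.mk.injEq, and_true] at hi
        rw [hi]; exact hs' i
    · obtain ⟨s, hs, hs'⟩ := hK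
      refine ⟨s, hs, fun v hv => ?_⟩
      rw [mem_sc] at hv
      rcases hv with ⟨i, hi⟩ | ⟨i, hi⟩
      · simp only [Prod.mk.injEq, and_true] at hi
        rw [hi]; exact hs' i
      · simp at hi

lemma card_sc {V : Type*} [LinearOrder V] {m : ℕ} {color : V → Fin m}
    {c c' : Fin m → V} (hc : Trans color c) (hc' : Trans color c') :
    (sc c c').card = m + m := by
  rw [sc, Finset.card_union_of_disjoint]
  · rw [Finset.card_image_of_injective _ (fun i j h => hc.inj (by simpa using h)),
      Finset.card_image_of_injective _ (fun i j h => hc'.inj (by simpa using h))]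
    simp
  · rw [Finset.disjoint_left]
    intro x hx hx'
    simp only [Finset.mem_image, Finset.mem_univ, true_and] at hx hx'
    obtain ⟨i, rfl⟩ := hx
    obtain ⟨j, hj⟩ := hx'
    simp at hj

/-- A complex with `d + 1` colours which embeds in the `2 d`-sphere has no non zero stress in
characteristic two, for generic coefficients. -/
theorem no_stress {V σ : Type*} [Fintype V] {d : ℕ} (color : V → Fin (d + 1))
    (K : Finset V → Prop) (f : (V → ℝ) → EuclideanSpace ℝ (Fin (2 * d + 1)))
    (hc : ContinuousOn f (real K)) (hinj : Set.InjOn f (real K)) (hf : ∀ y ∈ real K, ‖f y‖ = 1)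
    (α β : V → σ) (hα : Function.Injective α) (hαβ : ∀ v w, α v ≠ β w)
    (l : (Fin (d + 1) → V) → MvPolynomial σ (ZMod 2))
    (hl : Stress (fun v => MvPolynomial.X (α v)) (fun v => MvPolynomial.X (β v)) l)
    (hK : ∀ c, l c ≠ 0 → Trans color c ∧ ∃ s, K s ∧ ∀ i, c i ∈ s) (c : Fin (d + 1) → V) :
    l c = 0 := by
  classical
  let key : V → Fin (d + 1) ×ₗ Fin (Fintype.card V) :=
    fun v => toLex (color v, Fintype.equivFin V v)
  have hkey : Function.Injective key := by
    intro u v h
    have h1 : (color u, Fintype.equivFin V u) = (color v, Fintype.equivFin V v) :=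
      toLex.injective h
    exact (Fintype.equivFin V).injective (Prod.mk.inj h1).2
  let _ : LinearOrder V := LinearOrder.lift' key hkey
  have hmono : ∀ u v, color u < color v → u < v := by
    intro u v h
    have h1 : key u < key v := by
      rw [Prod.Lex.lt_iff]
      exact Or.inl h
    exact h1
  have hcol : ∀ c, l c ≠ 0 → Trans color c := fun c hc => (hK c hc).1
  have h0 : ∑ s, altv (MvPolynomial σ (ZMod 2)) true s *
      zc (fun v => MvPolynomial.X (α v)) (fun v => MvPolynomial.X (β v)) l s = 0 := by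
    refine embed K (2 * d) f hc hinj hf _ ?_ (zc_flip _ _ _) (bd_zc color _ _ l hl hcol)
    intro s hs
    obtain ⟨c, c', rfl, hw⟩ := exists_of_zc _ _ _ hs
    have h1 : l c ≠ 0 := by
      intro h0; apply hw; rw [wt, h0]; ring
    have h2 : l c' ≠ 0 := by
      intro h0; apply hw; rw [wt, h0]; ring
    have hne : ∀ i, c i ≠ c' i := by
      intro i hi
      apply hw
      rw [wt, Finset.prod_eq_zero (Finset.mem_univ i), mul_zero]
      rw [hi, br_self]
    refine ⟨dj_sc (hcol _ h1) (hcol _ h2) hne (hK c h1).2 (hK c' h2).2, ?_⟩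
    rw [card_sc (hcol _ h1) (hcol _ h2)]
    ring
  rw [altv_zc color hmono _ _ l hl hcol] at h0
  exact stress_sq color α β hα hαβ l hcol h0 c

end BalShift
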