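import Pool.Agent.Lib.BalShift.Defs
import Pool.Agent.Lib.BalShift.NoStress
import Pool.Agent.Lib.BalShift.Elim

/-!
# From a face of the shifted complex to a linear functional
-/

open Finset

namespace BalShift

variable {V : Type*} [Fintype V] [LinearOrder V] {d : ℕ}

omit [Fintype V] in
lemma injOn_image {color : V → Fin (d + 1)} {g : Fin (d + 1) → V} (hg : Trans color g) :
    Set.InjOn color ((Finset.univ.image g : Finset V) : Set V) := by
  intro x hx y hy hxy
  simp only [Finset.coe_image, Finset.coe_univ, Set.image_univ, Set.mem_range] at hx hy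
  obtain ⟨i, rfl⟩ := hx
  obtain ⟨j, rfl⟩ := hy
  rw [hg.out, hg.out] at hxy
  rw [hxy]

omit [Fintype V] in
lemma image_color {color : V → Fin (d + 1)} {g : Fin (d + 1) → V} (hg : Trans color g) :
    (Finset.univ.image g).image color = Finset.univ := by
  ext i
  simp only [Finset.mem_image, Finset.mem_univ, true_and, iff_true]
  exact ⟨g i, ⟨i, rfl⟩, hg.out i⟩

omit [Fintype V] [LinearOrder V] in
/-- monomials of transversals in the Stanley-Reisner ring -/
noncomputable def mon (K : SComplex V) (c : Fin (d + 1) → V) : K.ring :=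
  Ideal.Quotient.mk K.ideal (∏ i, MvPolynomial.X (c i))

omit [Fintype V] in
lemma mon_eq_zero (K : SComplex V) {c : Fin (d + 1) → V} (hc : Function.Injective c)
    (h : Finset.univ.image c ∉ K.faces) : mon K c = 0 := by
  rw [mon, Ideal.Quotient.eq_zero_iff_mem, SComplex.ideal]
  apply Ideal.subset_span
  refine ⟨_, h, ?_⟩
  rw [Finset.prod_image fun i _ j _ hij => hc hij]

lemma thetaF_image (K : SComplex V) (color : V → Fin (d + 1)) (Θ : V → V → ℝ)
    {g : Fin (d + 1) → V} (hg : Trans color g) :
    K.thetaF color Θ (Finset.univ.image g) =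
      ∑ c : Fin (d + 1) → V, if ∀ i, color (c i) = i then
        (∏ i, Θ (g i) (c i)) • mon K c else 0 := by
  rw [SComplex.thetaF, Finset.prod_image fun i _ j _ hij => hg.inj hij]
  simp only [SComplex.theta]
  rw [← map_prod, Finset.prod_univ_sum, map_sum]
  rw [← Finset.sum_filter]
  refine Finset.sum_congr ?_ fun c _ => ?_
  · ext c
    simp only [Fintype.mem_piFinset, Finset.mem_filter, Finset.mem_univ, true_and, hg.out]
  · rw [Finset.prod_mul_distrib, mon, ← map_prod, ← MvPolynomial.smul_eq_C_mul]
    rfl

/-- among the two smallest vertices of its class -/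
def Small (color : V → Fin (d + 1)) (v : V) : Prop :=
  (Finset.univ.filter fun u => color u = color v ∧ u < v).card < 2

lemma lex_of_small {color : V → Fin (d + 1)} (hadm : Admissible color 2)
    {g g0 : Fin (d + 1) → V} (hg : ∃ i, Small color (g i)) (hg0 : ∀ i, ¬ Small color (g0 i)) :
    LexLT (Finset.univ.image g) (Finset.univ.image g0) := by
  obtain ⟨i, hi⟩ := hg
  have hne : (Finset.univ.image g).Nonempty := ⟨g i, by simp⟩
  set v := (Finset.univ.image g).min' hne with hv
  have h1 : v ∈ Finset.univ.image g := Finset.min'_mem _ _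
  have h2 : v ≤ g i := Finset.min'_le _ _ (by simp)
  have h3 : Small color v := hadm h2 hi
  refine ⟨v, h1, ?_, ?_⟩
  · intro h4
    simp only [Finset.mem_image, Finset.mem_univ, true_and] at h4
    obtain ⟨j, hj⟩ := h4
    exact hg0 j (hj ▸ h3)
  · intro u hu
    constructor
    · intro h4
      exact absurd (Finset.min'_le _ _ h4) (not_le.2 hu)
    · intro h4
      simp only [Finset.mem_image, Finset.mem_univ, true_and] at h4
      obtain ⟨j, hj⟩ := h4
      exact absurd (hj ▸ (hadm hu.le h3 : Small color u)) (hg0 j)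

theorem exists_functional (K : SComplex V) (color : V → Fin (d + 1)) (Θ : V → V → ℝ)
    (hadm : Admissible color 2) (g0 : Fin (d + 1) → V) (hg0 : Trans color g0)
    (hbig : ∀ i, ¬ Small color (g0 i)) (hF : Finset.univ.image g0 ∈ K.shift color Θ) :
    ∃ Λ : (Fin (d + 1) → V) → ℝ,
      (∀ c, Λ c ≠ 0 → Trans color c ∧ Finset.univ.image c ∈ K.faces) ∧ (∃ c, Λ c ≠ 0) ∧
      ∀ g, Trans color g → (∃ i, Small color (g i)) → ∑ c, Λ c * ∏ i, Θ (g i) (c i) = 0 := by
  obtain ⟨_, hF⟩ := hF
  obtain ⟨φ, hφ, hker⟩ := Submodule.exists_le_ker_of_notMem hF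
  set Λ : (Fin (d + 1) → V) → ℝ := fun c => if ∀ i, color (c i) = i then φ (mon K c) else 0
    with hΛ
  have key : ∀ g, Trans color g → φ (K.thetaF color Θ (Finset.univ.image g)) =
      ∑ c, Λ c * ∏ i, Θ (g i) (c i) := by
    intro g hg
    rw [thetaF_image K color Θ hg, map_sum]
    refine Finset.sum_congr rfl fun c _ => ?_
    simp only [hΛ]
    split_ifs with h
    · rw [map_smul, smul_eq_mul, mul_comm]
    · rw [map_zero, zero_mul]
  refine ⟨Λ, ?_, ?_, ?_⟩
  · intro c hc
    have h1 : ∀ i, color (c i) = i := by
      by_contra h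
      apply hc
      simp only [hΛ, if_neg h]
    refine ⟨⟨h1⟩, ?_⟩
    by_contra h2
    apply hc
    simp only [hΛ, if_pos h1]
    rw [mon_eq_zero K (Trans.inj ⟨h1⟩) h2, map_zero]
  · by_contra hcon
    push Not at hcon
    apply hφ
    rw [key g0 hg0]
    exact Finset.sum_eq_zero fun c _ => by rw [hcon c, zero_mul]
  · intro g hg hsm
    rw [← key g hg]
    apply hker
    apply Submodule.subset_span
    refine ⟨_, ⟨injOn_image hg, ?_, lex_of_small hadm hsm hbig⟩, rfl⟩
    rw [image_color hg, image_color hg0]

omit [Fintype V] in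
/-- transversals in a copy of `[3]^{*(d+1)}` -/
theorem of_containsJoin {color : V → Fin (d + 1)} {L : Set (Finset V)}
    (hL : ∀ F ∈ L, Set.InjOn color (F : Set V)) (h : ContainsJoin d L) :
    ∃ (φ : Fin (d + 1) → Fin 3 → V) (a : Fin (d + 1) → Fin 3), (∀ k b, color (φ k b) = k) ∧
      (∀ k, Function.Injective (φ k)) ∧ (∀ k b, φ k b ≤ φ k (a k)) ∧
      Finset.univ.image (fun k => φ k (a k)) ∈ L := by
  obtain ⟨φ, hφ, hfac⟩ := h
  have hs : ∀ t : Fin (d + 1) → Fin 3,
      Finset.univ.image (fun i => φ (i, t i)) ∈ L := by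
    intro t
    have h1 := hfac (Finset.univ.image fun i => (i, t i)) (by
      intro x hx y hy hxy
      simp only [Finset.coe_image, Finset.coe_univ, Set.image_univ, Set.mem_range] at hx hy
      obtain ⟨i, rfl⟩ := hx
      obtain ⟨j, rfl⟩ := hy
      simp only at hxy
      rw [hxy])
    rwa [Finset.image_image] at h1
  have hinj : ∀ t : Fin (d + 1) → Fin 3, Function.Injective fun i => color (φ (i, t i)) := by
    intro t i j hij
    have h1 := hL _ (hs t) (by simp) (by simp) hij
    have h2 := hφ h1
    rw [Prod.mk.injEq] at h2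
    exact h2.1
  have hcol : ∀ i a b, color (φ (i, a)) = color (φ (i, b)) := by
    intro i a b
    have h1 := hinj (Function.update (fun _ => 0) i a)
    have h2 := Finite.surjective_of_injective (hinj (Function.update (fun _ => 0) i b))
    obtain ⟨j, hj⟩ := h2 (color (φ (i, a)))
    by_cases hji : j = i
    · subst hji
      simp only [Function.update_self] at hj
      exact hj.symm
    · simp only [Function.update_of_ne hji] at hj
      have h3 : j = i := by
        apply h1
        simp only [Function.update_of_ne hji, Function.update_self]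
        exact hj
      exact absurd h3 hji
  have hbij : Function.Bijective fun i => color (φ (i, 0)) :=
    Finite.injective_iff_bijective.1 (hinj fun _ => 0)
  let σ : Fin (d + 1) ≃ Fin (d + 1) := Equiv.ofBijective _ hbij
  have hσ : ∀ i a, color (φ (i, a)) = σ i := fun i a => hcol i a 0
  have hmax : ∀ i, ∃ a, ∀ b, φ (i, b) ≤ φ (i, a) := by
    intro i
    obtain ⟨a, _, ha⟩ := Finset.exists_max_image Finset.univ (fun b => φ (i, b)) ⟨0, by simp⟩
    exact ⟨a, fun b => ha b (Finset.mem_univ _)⟩
  choose a ha using hmax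
  refine ⟨fun k b => φ (σ.symm k, b), fun k => a (σ.symm k), ?_, ?_, ?_, ?_⟩
  · intro k b
    rw [hσ]; simp
  · intro k b b' hb
    have := hφ hb
    rw [Prod.mk.injEq] at this
    exact this.2
  · intro k b
    exact ha _ b
  · have h1 := hs a
    have h2 : Finset.univ.image (fun k => φ (σ.symm k, a (σ.symm k))) =
        Finset.univ.image (fun i => φ (i, a i)) := by
      ext x
      simp only [Finset.mem_image, Finset.mem_univ, true_and]
      constructor
      · rintro ⟨k, rfl⟩; exact ⟨σ.symm k, rfl⟩
      · rintro ⟨i, rfl⟩; exact ⟨σ i, by simp⟩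
    rw [h2]
    exact h1

/-- maxima of the parts are not small -/
lemma not_small {color : V → Fin (d + 1)} {φ : Fin 3 → V} {k : Fin (d + 1)} {a : Fin 3}
    (hc : ∀ b, color (φ b) = k) (hinj : Function.Injective φ) (ha : ∀ b, φ b ≤ φ a) :
    ¬ Small color (φ a) := by
  rw [Small, not_lt]
  have h1 : (((Finset.univ : Finset (Fin 3)).erase a).image φ).card = 2 := by
    rw [Finset.card_image_of_injective _ hinj, Finset.card_erase_of_mem (Finset.mem_univ _)]
    simp
  rw [← h1]
  apply Finset.card_le_card
  intro x hx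
  simp only [Finset.mem_image, Finset.mem_erase, Finset.mem_univ, and_true] at hx
  obtain ⟨b, hb, rfl⟩ := hx
  simp only [Finset.mem_filter, Finset.mem_univ, true_and, hc]
  exact lt_of_le_of_ne (ha b) fun h => hb (hinj h)

/-- the two smallest vertices of a class with at least two vertices -/
lemma exists_small (color : V → Fin (d + 1)) (i : Fin (d + 1))
    (h : 2 ≤ (Finset.univ.filter fun v => color v = i).card) :
    ∃ p q, color p = i ∧ color q = i ∧ p ≠ q ∧ Small color p ∧ Small color q := by
  set S := Finset.univ.filter fun v => color v = i with hS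
  have hne : S.Nonempty := by rw [← Finset.card_pos]; omega
  set p := S.min' hne with hp
  have hpS : p ∈ S := Finset.min'_mem _ _
  have hne' : (S.erase p).Nonempty := by
    rw [← Finset.card_pos, Finset.card_erase_of_mem hpS]; omega
  set q := (S.erase p).min' hne' with hq
  have hqS : q ∈ S.erase p := Finset.min'_mem _ _
  have hqS' := Finset.mem_of_mem_erase hqS
  have hcp : color p = i := by
    have := hpS; rw [hS, Finset.mem_filter] at this; exact this.2
  have hcq : color q = i := by
    have := hqS'; rw [hS, Finset.mem_filter] at this; exact this.2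
  refine ⟨p, q, hcp, hcq, (Finset.ne_of_mem_erase hqS).symm, ?_, ?_⟩
  · rw [Small, Finset.card_eq_zero.2]
    · norm_num
    · rw [Finset.filter_eq_empty_iff]
      rintro u _ ⟨h1, h2⟩
      have : u ∈ S := by
        rw [hS, Finset.mem_filter]; exact ⟨Finset.mem_univ _, by rw [h1, hcp]⟩
      exact absurd (Finset.min'_le _ _ this) (not_le.2 h2)
  · rw [Small]
    have h3 : (Finset.univ.filter fun u => color u = color q ∧ u < q) ⊆ {p} := by
      intro u hu
      rw [Finset.mem_filter] at hu
      have : u ∈ S := by
        rw [hS, Finset.mem_filter]; exact ⟨Finset.mem_univ _, by rw [hu.2.1, hcq]⟩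
      rw [Finset.mem_singleton]
      by_contra hup
      have h4 : u ∈ S.erase p := Finset.mem_erase.2 ⟨hup, this⟩
      exact absurd (Finset.min'_le _ _ h4) (not_le.2 hu.2.2)
    have := Finset.card_le_card h3
    rw [Finset.card_singleton] at this
    omega

end BalShift
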