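import Mathlib

/-!
# Alternating sets of signed labels and the Fan relation
-/

open Finset

namespace BalShift

section alt

variable {L : Type*} [LinearOrder L]

/-- the signed label set `T` is alternating, starting with the sign `e` -/
def Alt (e : Bool) (T : Finset (L × Bool)) : Prop :=
  ∀ y ∈ T, (y.2 = e ↔ Even (T.filter fun z => z.1 < y.1).card)

lemma alt_empty (e : Bool) : Alt e (∅ : Finset (L × Bool)) := by
  intro y hy; simp at hy

lemma alt_insert_min {x : L × Bool} {T : Finset (L × Bool)} (h : ∀ y ∈ T, x.1 < y.1) (e : Bool) :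
    Alt e (insert x T) ↔ x.2 = e ∧ Alt (!e) T := by
  have hx : x ∉ T := fun hx => lt_irrefl _ (h x hx)
  have h0 : ((insert x T).filter fun z => z.1 < x.1) = ∅ := by
    rw [Finset.filter_eq_empty_iff]
    intro z hz
    rw [Finset.mem_insert] at hz
    rcases hz with rfl | hz
    · exact lt_irrefl _
    · exact not_lt.2 (h z hz).le
  have h1 : ∀ y ∈ T, ((insert x T).filter fun z => z.1 < y.1).card =
      (T.filter fun z => z.1 < y.1).card + 1 := by
    intro y hy
    rw [Finset.filter_insert, if_pos (h y hy), Finset.card_insert_of_notMem]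
    simp [hx]
  constructor
  · intro H
    refine ⟨?_, ?_⟩
    · have := H x (Finset.mem_insert_self _ _)
      rw [h0] at this
      exact this.2 (by simp)
    · intro y hy
      have := H y (Finset.mem_insert_of_mem hy)
      rw [h1 y hy, Nat.even_add_one] at this
      constructor
      · intro h2
        by_contra h3
        have h4 := this.2 h3
        rw [h2] at h4
        cases e <;> simp at h4
      · intro h2
        by_contra h3
        have h4 : y.2 = e := by
          cases e <;> cases hy2 : y.2 <;> simp_all
        exact (this.1 h4) h2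
  · rintro ⟨h2, h3⟩ y hy
    rw [Finset.mem_insert] at hy
    rcases hy with rfl | hy
    · rw [h0]; simp [h2]
    · rw [h1 y hy, Nat.even_add_one]
      have := h3 y hy
      constructor
      · intro h4 h5
        have := this.2 h5
        rw [h4] at this
        cases e <;> simp at this
      · intro h4
        by_contra h5
        apply h4
        apply this.1
        cases e <;> cases hy2 : y.2 <;> simp_all

lemma alt_injOn {e : Bool} {T : Finset (L × Bool)} (h : Alt e T) :
    Set.InjOn Prod.fst (T : Set (L × Bool)) := by
  intro x hx y hy hxy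
  have h1 := h x hx
  have h2 := h y hy
  rw [hxy] at h1
  have h3 : x.2 = e ↔ y.2 = e := h1.trans h2.symm
  refine Prod.ext hxy ?_
  cases e <;> cases hx2 : x.2 <;> cases hy2 : y.2 <;> simp_all

open Classical in
/-- indicator of `Alt` -/
noncomputable def altv (k : Type*) [CommRing k] (e : Bool) (T : Finset (L × Bool)) : k :=
  if Alt e T then 1 else 0

variable (k : Type*) [CommRing k]

lemma altv_empty (e : Bool) : altv k e (∅ : Finset (L × Bool)) = 1 := by
  rw [altv, if_pos (alt_empty e)]

lemma altv_insert_min {x : L × Bool} {T : Finset (L × Bool)} (h : ∀ y ∈ T, x.1 < y.1) (e : Bool) :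
    altv k e (insert x T) = if x.2 = e then altv k (!e) T else 0 := by
  classical
  by_cases h1 : x.2 = e
  · by_cases h2 : Alt (!e) T
    · rw [altv, if_pos ((alt_insert_min h e).2 ⟨h1, h2⟩), if_pos h1, altv, if_pos h2]
    · rw [altv, if_neg (fun h3 => h2 ((alt_insert_min h e).1 h3).2), if_pos h1, altv, if_neg h2]
  · rw [altv, if_neg (fun h3 => h1 ((alt_insert_min h e).1 h3).1), if_neg h1]

/-- Fan's relation for sets of signed labels without complementary pairs -/
theorem fan_set [CharP k 2] (T : Finset (L × Bool)) :
    T.Nonempty → Set.InjOn Prod.fst (T : Set (L × Bool)) → ∀ e : Bool,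
    ∑ y ∈ T, altv k e (T.erase y) = altv k e T + altv k (!e) T := by
  classical
  have h2 : ∀ a : k, a + a = 0 := fun a => CharTwo.add_self_eq_zero a
  induction T using Finset.induction_on_min_value (fun x : L × Bool => x.1) with
  | empty => intro h; simp at h
  | insert x T hxT hmin ih =>
    intro _ hinj e
    have hlt : ∀ y ∈ T, x.1 < y.1 := by
      intro y hy
      refine lt_of_le_of_ne (hmin y hy) fun h => ?_
      have : x = y := hinj (by simp) (by simp [hy]) h
      exact hxT (this ▸ hy)
    have hinj' : Set.InjOn Prod.fst (T : Set (L × Bool)) :=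
      hinj.mono (by intro z hz; simp at hz ⊢; exact Or.inr hz)
    rw [Finset.sum_insert hxT, Finset.erase_insert hxT]
    have h3 : ∀ y ∈ T, altv k e ((insert x T).erase y) =
        if x.2 = e then altv k (!e) (T.erase y) else 0 := by
      intro y hy
      have hxy : x ≠ y := fun h => hxT (h ▸ hy)
      rw [Finset.erase_insert_of_ne hxy]
      exact altv_insert_min k (fun z hz => hlt z (Finset.mem_of_mem_erase hz)) e
    rw [Finset.sum_congr rfl h3, altv_insert_min k hlt, altv_insert_min k hlt, Bool.not_not]
    by_cases hT : T.Nonempty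
    · have h4 := ih hT hinj' (!e)
      rw [Bool.not_not] at h4
      by_cases hx : x.2 = e
      · have hx' : ¬ (x.2 = !e) := by rw [hx]; cases e <;> simp
        simp only [if_pos hx, if_neg hx']
        rw [h4, add_zero, add_comm (altv k (!e) T), ← add_assoc, h2, zero_add]
      · have hx' : x.2 = !e := by cases e <;> cases hx2 : x.2 <;> simp_all
        simp only [if_neg hx, if_pos hx']
        simp
    · rw [Finset.not_nonempty_iff_eq_empty] at hT
      subst hT
      by_cases hx : x.2 = e
      · have hx' : ¬ (x.2 = !e) := by rw [hx]; cases e <;> simp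
        simp [if_pos hx, if_neg hx', altv_empty]
      · have hx' : x.2 = !e := by cases e <;> cases hx2 : x.2 <;> simp_all
        simp [if_neg hx, if_pos hx', altv_empty]

end alt

/-- all lists obtained by deleting one entry -/
def faces {α : Type*} : List α → List (List α)
  | [] => []
  | x :: l => l :: (faces l).map (fun m => x :: m)

lemma length_of_mem_faces {α : Type*} {l m : List α} (h : m ∈ faces l) :
    m.length + 1 = l.length := by
  induction l generalizing m with
  | nil => simp [faces] at h
  | cons x l ih =>
    simp only [faces, List.mem_cons, List.mem_map] at h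
    rcases h with rfl | ⟨m', hm', rfl⟩
    · simp
    · have := ih hm'
      simp [this]

lemma sublist_of_mem_faces {α : Type*} {l m : List α} (h : m ∈ faces l) : m.Sublist l := by
  induction l generalizing m with
  | nil => simp [faces] at h
  | cons x l ih =>
    simp only [faces, List.mem_cons, List.mem_map] at h
    rcases h with rfl | ⟨m', hm', rfl⟩
    · exact List.sublist_cons_self _ _
    · exact (ih hm').cons_cons x

lemma faces_map {α β : Type*} (f : α → β) (l : List α) :
    faces (l.map f) = (faces l).map (List.map f) := by
  induction l with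
  | nil => simp [faces]
  | cons x l ih =>
    simp only [List.map_cons, faces, ih, List.map_map]
    congr 1

/-- sum of a function over the faces -/
def fsum {α : Type*} {k : Type*} [AddCommMonoid k] (φ : List α → k) (l : List α) : k :=
  ((faces l).map φ).sum

lemma fsum_nil {α : Type*} {k : Type*} [AddCommMonoid k] (φ : List α → k) : fsum φ [] = 0 := by
  simp [fsum, faces]

lemma fsum_cons {α : Type*} {k : Type*} [AddCommMonoid k] (φ : List α → k) (x : α) (l : List α) :
    fsum φ (x :: l) = φ l + fsum (fun m => φ (x :: m)) l := by
  simp [fsum, faces, Function.comp_def]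

lemma fsum_add {α : Type*} {k : Type*} [AddCommMonoid k] (φ ψ : List α → k) (l : List α) :
    fsum (fun m => φ m + ψ m) l = fsum φ l + fsum ψ l := by
  induction l generalizing φ ψ with
  | nil => simp [fsum_nil]
  | cons x l ih => rw [fsum_cons, fsum_cons, fsum_cons, ih]; abel

lemma fsum_fsum {α : Type*} {k : Type*} [CommRing k] [CharP k 2] (φ : List α → k) (l : List α) :
    fsum (fun m => fsum φ m) l = 0 := by
  induction l generalizing φ with
  | nil => simp [fsum_nil]
  | cons x l ih =>
    rw [fsum_cons]
    have : (fun m => fsum φ (x :: m)) = fun m => φ m + fsum (fun m' => φ (x :: m')) m := by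
      funext m; rw [fsum_cons]
    rw [this, fsum_add, ih, add_zero]
    exact CharTwo.add_self_eq_zero _

lemma fsum_congr {α : Type*} {k : Type*} [AddCommMonoid k] {φ ψ : List α → k} {l : List α}
    (h : ∀ m ∈ faces l, φ m = ψ m) : fsum φ l = fsum ψ l := by
  rw [fsum, fsum, List.map_congr_left h]

/-- for a list without repetitions -/
lemma fsum_nodup {α : Type*} [DecidableEq α] {k : Type*} [AddCommMonoid k] (φ : List α → k)
    {l : List α} (hl : l.Nodup) : fsum φ l = ∑ x ∈ l.toFinset, φ (l.erase x) := by
  induction l generalizing φ with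
  | nil => simp [fsum_nil]
  | cons x l ih =>
    rw [List.nodup_cons] at hl
    rw [fsum_cons, ih _ hl.2, List.toFinset_cons, Finset.sum_insert (by simpa using hl.1)]
    rw [List.erase_cons_head]
    congr 1
    refine Finset.sum_congr rfl fun y hy => ?_
    rw [List.mem_toFinset] at hy
    have : x ≠ y := fun h => hl.1 (h ▸ hy)
    rw [List.erase_cons_tail (by simpa using this)]

lemma fsum_filter {α : Type*} [DecidableEq α] {k : Type*} [AddCommMonoid k] (φ : List α → k)
    {l : List α} (hl : l.Nodup) :
    fsum φ l = ∑ x ∈ l.toFinset, φ (l.filter fun y => decide (y ≠ x)) := by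
  rw [fsum_nodup φ hl]
  refine Finset.sum_congr rfl fun y hy => ?_
  rw [hl.erase_eq_filter]
  congr 1
  refine List.filter_congr fun z _ => ?_
  by_cases h : z = y <;> simp [h]

lemma fsum_toFinset {α : Type*} [DecidableEq α] {k : Type*} [AddCommMonoid k] (φ : List α → k)
    (ψ : Finset α → k) (h : ∀ m : List α, m.Nodup → φ m = ψ m.toFinset)
    {l : List α} (hl : l.Nodup) : fsum φ l = ∑ x ∈ l.toFinset, ψ (l.toFinset.erase x) := by
  rw [fsum_nodup φ hl]
  refine Finset.sum_congr rfl fun y hy => ?_
  rw [h _ (hl.erase y)]
  congr 1
  ext z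
  rw [List.mem_toFinset, hl.mem_erase_iff, Finset.mem_erase, List.mem_toFinset]

open Classical in
/-- alternating value of a list of signed labels (zero when labels are repeated) -/
noncomputable def altl {L : Type*} [LinearOrder L] (k : Type*) [CommRing k] (e : Bool)
    (l : List (L × Bool)) : k :=
  if l.Nodup then altv k e l.toFinset else 0

lemma altl_of_nodup {L : Type*} [LinearOrder L] (k : Type*) [CommRing k] (e : Bool)
    {l : List (L × Bool)} (h : l.Nodup) : altl k e l = altv k e l.toFinset := by
  rw [altl]; split_ifs; rfl

lemma altl_of_not_nodup {L : Type*} [LinearOrder L] (k : Type*) [CommRing k] (e : Bool)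
    {l : List (L × Bool)} (h : ¬ l.Nodup) : altl k e l = 0 := by
  rw [altl]; split_ifs; rfl

lemma perm_altl {L : Type*} [LinearOrder L] (k : Type*) [CommRing k] (e : Bool)
    {l m : List (L × Bool)} (h : l.Perm m) : altl k e l = altl k e m := by
  by_cases hl : l.Nodup
  · rw [altl_of_nodup k e hl, altl_of_nodup k e (h.nodup_iff.1 hl), List.toFinset_eq_of_perm _ _ h]
  · rw [altl_of_not_nodup k e hl, altl_of_not_nodup k e (fun h' => hl (h.nodup_iff.2 h'))]

/-- faces sum of a permutation invariant function -/
lemma fsum_perm {α : Type*} {k : Type*} [AddCommMonoid k] {φ : List α → k}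
    (hφ : ∀ l m : List α, l.Perm m → φ l = φ m) {l m : List α} (h : l.Perm m) :
    fsum φ l = fsum φ m := by
  induction h generalizing φ with
  | nil => rfl
  | cons x h ih =>
    rw [fsum_cons, fsum_cons, hφ _ _ h, ih fun a b hab => hφ _ _ (hab.cons x)]
  | swap x y l =>
    rw [fsum_cons, fsum_cons, fsum_cons, fsum_cons]
    have : (fun m => φ (y :: x :: m)) = fun m => φ (x :: y :: m) := by
      funext m; exact hφ _ _ (List.Perm.swap _ _ _)
    rw [this]
    abel
  | trans _ _ ih1 ih2 => rw [ih1 hφ, ih2 hφ]

/-- Fan's relation for lists of signed labels without complementary pairs. -/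
theorem fan_list {L : Type*} [LinearOrder L] (k : Type*) [CommRing k] [CharP k 2]
    (l : List (L × Bool)) (hl : l ≠ []) (hc : ∀ x ∈ l, ∀ y ∈ l, x.1 = y.1 → x = y) (e : Bool) :
    fsum (altl k e) l = altl k e l + altl k (!e) l := by
  by_cases hn : l.Nodup
  · rw [fsum_toFinset _ (altv k e) (fun m hm => altl_of_nodup k e hm) hn,
      altl_of_nodup k _ hn, altl_of_nodup k _ hn, ← fan_set k l.toFinset]
    · obtain ⟨x, hx⟩ := List.exists_mem_of_ne_nil l hl
      exact ⟨x, by simpa using hx⟩
    · intro x hx y hy hxy
      exact hc x (by simpa using hx) y (by simpa using hy) hxy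
  · rw [altl_of_not_nodup k _ hn, altl_of_not_nodup k _ hn, add_zero]
    obtain ⟨x, hx⟩ : ∃ x, List.Duplicate x l := by
      rw [← List.exists_duplicate_iff_not_nodup] at hn; exact hn
    obtain ⟨m, hm⟩ : ∃ m, l.Perm (x :: x :: m) := by
      obtain ⟨m, hm⟩ := (List.duplicate_iff_sublist.1 hx).exists_perm_append
      exact ⟨m, hm⟩
    rw [fsum_perm (fun a b h => perm_altl k e h) hm, fsum_cons, fsum_cons]
    have h5 : (fun m => altl k e (x :: x :: m)) = fun _ => (0 : k) := by
      funext m
      exact altl_of_not_nodup k _ (by simp)
    have h6 : fsum (fun _ : List (L × Bool) => (0 : k)) m = 0 := by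
      rw [fsum]; simp
    rw [h5, h6, add_zero]
    exact CharTwo.add_self_eq_zero _

/-- too long lists have alternating value zero -/
lemma altl_eq_zero {n : ℕ} (k : Type*) [CommRing k] (e : Bool) (l : List (Fin n × Bool))
    (hl : n < l.length) : altl k e l = 0 := by
  by_cases h : l.Nodup
  · rw [altl_of_nodup k _ h, altv, if_neg]
    intro h1
    have h2 := alt_injOn h1
    have h3 : l.toFinset.card ≤ n := by
      have := Finset.card_le_card_of_injOn (s := l.toFinset) (t := (Finset.univ : Finset (Fin n)))
        Prod.fst (by intro x _; simp) h2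
      simpa using this
    rw [List.toFinset_card_of_nodup h] at h3
    omega
  · exact altl_of_not_nodup k _ h

end BalShift
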