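import Pool.Agent.Lib.BalShift.Transfer

/-!
# Balanced shifting of complexes embeddable in the `2 d`-sphere
-/

open Finset

namespace BalShift

variable {V : Type*} [Fintype V] [LinearOrder V] {d : ℕ}

omit [LinearOrder V] in
lemma real_eq (K : SComplex V) : real (fun s => s ∈ K.faces) = K.realization := by
  ext y
  constructor
  · rintro ⟨h1, h2, s, hs, h3⟩
    exact ⟨h1, h2, K.down_closed s hs _ fun v hv => h3 v (by simpa using hv)⟩
  · rintro ⟨h1, h2, h3⟩
    exact ⟨h1, h2, _, h3, fun v hv => by simpa using hv⟩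

omit [LinearOrder V] in
/-- characteristic two stresses vanish -/
theorem no_stress' (color : V → Fin (d + 1)) (K : SComplex V)
    (hemb : K.EmbedsInSphere (2 * d)) {σ : Type*}
    (α β : V → σ) (hα : Function.Injective α) (hαβ : ∀ v w, α v ≠ β w)
    (l : (Fin (d + 1) → V) → MvPolynomial σ (ZMod 2))
    (hl : Stress (fun v => MvPolynomial.X (α v)) (fun v => MvPolynomial.X (β v)) l)
    (hK : ∀ c, l c ≠ 0 → Trans color c ∧ ∃ s ∈ K.faces, ∀ i, c i ∈ s) : l = 0 := by
  classical
  obtain ⟨f, hf⟩ := hemb
  set F : (V → ℝ) → EuclideanSpace ℝ (Fin (2 * d + 1)) := fun x =>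
    if h : x ∈ K.realization then (f ⟨x, h⟩ : EuclideanSpace ℝ (Fin (2 * d + 1))) else 0 with hF
  have hFx : ∀ x : K.realization, F x = (f x : EuclideanSpace ℝ (Fin (2 * d + 1))) := by
    intro x
    simp only [hF, dif_pos x.2]
  funext c
  refine no_stress color (fun s => s ∈ K.faces) F ?_ ?_ ?_ α β hα hαβ l hl hK c
  · rw [real_eq, continuousOn_iff_continuous_domRestrict]
    have : K.realization.domRestrict F = fun x => (f x : EuclideanSpace ℝ (Fin (2 * d + 1))) := by
      funext x
      exact hFx x
    rw [this]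
    exact continuous_subtype_val.comp hf.continuous
  · rw [real_eq]
    intro x hx y hy hxy
    rw [hFx ⟨x, hx⟩, hFx ⟨y, hy⟩] at hxy
    have := hf.injective (Subtype.ext hxy)
    exact congrArg Subtype.val this
  · rw [real_eq]
    intro y hy
    rw [hFx ⟨y, hy⟩]
    simp

open MvPolynomial in
theorem main_poly (color : V → Fin (d + 1)) (K : SComplex V)
    (hemb : K.EmbedsInSphere (2 * d)) (hadm : Admissible color 2) :
    ∃ P : MvPolynomial (Ent color) ℚ, P ≠ 0 ∧ ∀ Θ : V → V → ℝ,
      aeval (fun p : Ent color => Θ p.1.1 p.1.2) P ≠ 0 → ¬ ContainsJoin d (K.shift color Θ) := by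
  classical
  by_cases hcls : ∀ i, 2 ≤ (Finset.univ.filter fun v => color v = i).card
  · have h0 := fun i => exists_small color i (hcls i)
    choose p q hp hq hpq hps hqs using h0
    set α : V → Ent color := fun w => ⟨(p (color w), w), hp _⟩ with hα
    set β : V → Ent color := fun w => ⟨(q (color w), w), hq _⟩ with hβ
    have hαi : Function.Injective α := by
      intro v w h
      have := congrArg (fun e : Ent color => e.1.2) h
      exact this
    have hαβ : ∀ v w, α v ≠ β w := by
      intro v w h
      have h1 : v = w := congrArg (fun e : Ent color => e.1.2) h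
      have h2 : p (color v) = q (color w) := congrArg (fun e : Ent color => e.1.1) h
      rw [h1] at h2
      exact hpq _ h2
    set good : (Fin (d + 1) → V) → Prop := fun c =>
      Trans color c ∧ Finset.univ.image c ∈ K.faces with hgood
    obtain ⟨P₁, hP₁, hP₁'⟩ := exists_poly α β good (by
      intro l hl hl'
      refine no_stress' color K hemb α β hαi hαβ l hl ?_
      intro c hc
      have h1 : good c := by
        by_contra h; exact hc (hl' c h)
      exact ⟨h1.1, _, h1.2, fun i => by simp⟩)
    obtain ⟨P₂, hP₂, hP₂'⟩ := block_det color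
    refine ⟨P₁ * P₂, mul_ne_zero hP₁ hP₂, ?_⟩
    intro Θ hΘ hcon
    rw [map_mul] at hΘ
    have hΘ₁ := left_ne_zero_of_mul hΘ
    have hΘ₂ := right_ne_zero_of_mul hΘ
    rw [hP₂'] at hΘ₂
    obtain ⟨φ, a, hφ, hφi, ha, hF⟩ := of_containsJoin (color := color) (fun F hF => hF.1) hcon
    obtain ⟨Λ, hΛ, ⟨c₀, hc₀⟩, hΛ0⟩ := exists_functional K color Θ hadm (fun k => φ k (a k))
      ⟨fun k => hφ k _⟩ (fun k => not_small (hφ k) (hφi k) (ha k)) hF
    set T : Matrix V V ℝ := Matrix.of fun v w => if color v = color w then Θ v w else 0 with hT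
    have hTv : ∀ v w, T v w = if color v = color w then Θ v w else 0 := fun v w => rfl
    have hNT : T⁻¹ * T = 1 := Matrix.nonsing_inv_mul T (isUnit_iff_ne_zero.2 hΘ₂)
    have hst : ∀ (i : Fin (d + 1)) (v : V), color v = i → Small color v →
        ∀ G : Fin (d + 1) → V, ∑ w, Λ (Function.update G i w) * T v w = 0 := by
      intro i v hv hsv G
      refine elim_factors T T⁻¹ hNT Λ i v ?_ G
      intro g hg
      by_cases htr : Trans color g
      · rw [← hΛ0 g htr ⟨i, by rw [hg]; exact hsv⟩]
        refine Finset.sum_congr rfl fun c _ => ?_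
        by_cases hc : Λ c = 0
        · rw [hc, zero_mul, zero_mul]
        · congr 1
          refine Finset.prod_congr rfl fun j _ => ?_
          rw [hTv, if_pos]
          rw [htr.out, (hΛ c hc).1.out]
      · refine Finset.sum_eq_zero fun c _ => ?_
        by_cases hc : Λ c = 0
        · rw [hc, zero_mul]
        · obtain ⟨j, hj⟩ : ∃ j, color (g j) ≠ j := by
            by_contra hcon'
            push Not at hcon'
            exact htr ⟨hcon'⟩
          rw [Finset.prod_eq_zero (Finset.mem_univ j), mul_zero]
          rw [hTv, if_neg]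
          rw [(hΛ c hc).1.out]
          exact hj
    have hzero : Λ = 0 := by
      refine hP₁' (fun p : Ent color => Θ p.1.1 p.1.2) hΘ₁ Λ ?_ ?_
      · intro i G
        have hcase : ∀ (x : Fin (d + 1) → V), (∀ k, color (x k) = k) → (∀ k, Small color (x k)) →
            ∑ w, Λ (Function.update G i w) * Θ (x (color w)) w = 0 := by
          intro x hx hxs
          rw [← hst i (x i) (hx i) (hxs i) G]
          refine Finset.sum_congr rfl fun w _ => ?_
          by_cases hc : Λ (Function.update G i w) = 0
          · rw [hc, zero_mul, zero_mul]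
          · congr 1
            have h1 := (hΛ _ hc).1.out i
            rw [Function.update_self] at h1
            rw [hTv, if_pos (by rw [hx, h1]), h1]
        exact ⟨hcase p hp hps, hcase q hq hqs⟩
      · intro c hc
        by_contra h
        exact hc (hΛ c h)
    exact hc₀ (by rw [hzero]; rfl)
  · refine ⟨1, one_ne_zero, ?_⟩
    intro Θ _ hcon
    apply hcls
    obtain ⟨φ, a, hφ, hφi, ha, hF⟩ := of_containsJoin (color := color) (fun F hF => hF.1) hcon
    intro i
    have h1 : (Finset.univ.image (φ i)).card = 3 := by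
      rw [Finset.card_image_of_injective _ (hφi i)]
      simp
    have h2 : Finset.univ.image (φ i) ⊆ Finset.univ.filter fun v => color v = i := by
      intro x hx
      simp only [Finset.mem_image, Finset.mem_univ, true_and] at hx
      obtain ⟨b, rfl⟩ := hx
      simp [hφ]
    have h3 := Finset.card_le_card h2
    omega

open MvPolynomial in
theorem main (color : V → Fin (d + 1)) (K : SComplex V)
    (hemb : K.EmbedsInSphere (2 * d)) (hadm : Admissible color 2) :
    (∀ Θ : V → V → ℝ, AlgebraicIndependent ℚ (fun p : Ent color => Θ p.1.1 p.1.2) →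
      ¬ ContainsJoin d (K.shift color Θ)) ∧
    ∃ P : MvPolynomial (Ent color) ℚ, P ≠ 0 ∧ ∀ Θ : V → V → ℝ,
      aeval (fun p : Ent color => Θ p.1.1 p.1.2) P ≠ 0 → ¬ ContainsJoin d (K.shift color Θ) := by
  obtain ⟨P, hP, hP'⟩ := main_poly color K hemb hadm
  refine ⟨fun Θ hΘ => hP' Θ fun h => hP ?_, P, hP, hP'⟩
  exact hΘ (by rw [h, map_zero])

end BalShift
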