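import Pool.Agent.Lib.BalShift.Cmp

/-!
# Sorted vertex lists of signed sets
-/

open Finset

namespace BalShift

/-- change of sign -/
def flipE (V : Type*) : V × Bool ≃ V × Bool := Equiv.prodCongr (Equiv.refl V) Equiv.boolNot

@[simp] lemma flipE_apply {V : Type*} (x : V × Bool) : flipE V x = (x.1, !x.2) := rfl

@[simp] lemma flipE_symm_apply {V : Type*} (x : V × Bool) : (flipE V).symm x = (x.1, !x.2) := by
  rw [Equiv.symm_apply_eq]; simp

lemma flipE_flipE {V : Type*} (x : V × Bool) : flipE V (flipE V x) = x := by simp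

variable {V : Type*} [LinearOrder V]

/-- sorted list of vertices -/
noncomputable def Ls (s : Finset (V × Bool)) : List (V × Bool) :=
  (s.map (toLex : V × Bool ≃ V ×ₗ Bool).toEmbedding).sort.map (ofLex : V ×ₗ Bool ≃ V × Bool)

lemma mem_Ls {s : Finset (V × Bool)} {x : V × Bool} : x ∈ Ls s ↔ x ∈ s := by
  simp only [Ls, List.mem_map, Finset.mem_sort, Finset.mem_map, Equiv.coe_toEmbedding]
  constructor
  · rintro ⟨_, ⟨y, hy, rfl⟩, rfl⟩
    simpa using hy
  · intro h
    exact ⟨toLex x, ⟨x, h, rfl⟩, by simp⟩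

lemma nodup_Ls (s : Finset (V × Bool)) : (Ls s).Nodup := by
  rw [Ls]
  exact (Finset.sort_nodup _ _).map (ofLex : V ×ₗ Bool ≃ V × Bool).injective

lemma toFinset_Ls (s : Finset (V × Bool)) : (Ls s).toFinset = s := by
  ext x; rw [List.mem_toFinset, mem_Ls]

lemma length_Ls (s : Finset (V × Bool)) : (Ls s).length = s.card := by
  rw [Ls, List.length_map, Finset.length_sort, Finset.card_map]

lemma pairwise_Ls {s : Finset (V × Bool)} (h : Set.InjOn Prod.fst (s : Set (V × Bool))) :
    (Ls s).Pairwise fun x y => x.1 < y.1 := by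
  have h1 : (Ls s).Pairwise fun x y => toLex x ≤ toLex y := by
    rw [Ls, List.pairwise_map]
    refine (Finset.pairwise_sort _ _).imp fun {a b} hab => ?_
    simpa using hab
  have h2 := List.Pairwise.and h1 (nodup_Ls s)
  refine h2.imp_of_mem fun {x y} hx hy hxy => ?_
  rw [mem_Ls] at hx hy
  have h3 : x.1 ≠ y.1 := fun h' => hxy.2 (h hx hy h')
  have h4 := hxy.1
  rw [Prod.Lex.le_iff] at h4
  rcases h4 with h4 | h4
  · exact h4
  · exact absurd h4.1 h3

instance : Std.Irrefl (fun x y : V × Bool => x.1 < y.1) := ⟨fun _ => lt_irrefl _⟩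
instance : Std.Antisymm (fun x y : V × Bool => x.1 < y.1) :=
  ⟨fun _ _ h1 h2 => absurd h1 (not_lt.2 h2.le)⟩

lemma eq_Ls {s : Finset (V × Bool)} (h : Set.InjOn Prod.fst (s : Set (V × Bool)))
    {l : List (V × Bool)} (hl : l.Pairwise fun x y => x.1 < y.1) (hm : ∀ x, x ∈ l ↔ x ∈ s) :
    l = Ls s :=
  List.Pairwise.eq_of_mem_iff (r := fun x y : V × Bool => x.1 < y.1) hl (pairwise_Ls h)
    fun x => by rw [hm, mem_Ls]

lemma Ls_empty : Ls (∅ : Finset (V × Bool)) = [] := by
  apply List.length_eq_zero_iff.1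
  rw [length_Ls]; simp

lemma Ls_flip {s : Finset (V × Bool)} (h : Set.InjOn Prod.fst (s : Set (V × Bool))) :
    Ls (s.map (flipE V).toEmbedding) = (Ls s).map (flipE V) := by
  symm
  apply eq_Ls
  · intro x hx y hy hxy
    simp only [Finset.coe_map, Set.mem_image, Finset.mem_coe, Equiv.coe_toEmbedding] at hx hy
    obtain ⟨x', hx', rfl⟩ := hx
    obtain ⟨y', hy', rfl⟩ := hy
    rw [h hx' hy' hxy]
  · rw [List.pairwise_map]
    exact pairwise_Ls h
  · intro x
    simp only [List.mem_map, mem_Ls, Finset.mem_map, Equiv.coe_toEmbedding]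

lemma fsum_Ls {k : Type*} [AddCommMonoid k] (φ : List (V × Bool) → k) {s : Finset (V × Bool)}
    (h : Set.InjOn Prod.fst (s : Set (V × Bool))) :
    fsum φ (Ls s) = ∑ x ∈ s, φ (Ls (s.erase x)) := by
  rw [fsum_filter φ (nodup_Ls s), toFinset_Ls]
  refine Finset.sum_congr rfl fun x _ => ?_
  congr 1
  apply eq_Ls
  · exact h.mono (by simp)
  · exact (pairwise_Ls h).filter _
  · intro y
    simp [mem_Ls, and_comm]

lemma altv_flip (k : Type*) [CommRing k] (e : Bool) (s : Finset (V × Bool)) :
    altv k e (s.map (flipE V).toEmbedding) = altv k (!e) s := by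
  have : Alt e (s.map (flipE V).toEmbedding) ↔ Alt (!e) s := by
    have h1 : ∀ v : V, ((s.map (flipE V).toEmbedding).filter fun z => z.1 < v).card =
        (s.filter fun z => z.1 < v).card := by
      intro v
      rw [Finset.filter_map, Finset.card_map]
      rfl
    constructor
    · intro H y hy
      have h2 := H (flipE V y) (by simpa using hy)
      rw [h1] at h2
      simp only [flipE_apply] at h2
      rw [← h2]
      cases e <;> cases y.2 <;> simp
    · intro H y hy
      simp only [Finset.mem_map, Equiv.coe_toEmbedding] at hy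
      obtain ⟨y, hy, rfl⟩ := hy
      rw [h1]
      simp only [flipE_apply]
      rw [← H y hy]
      cases e <;> cases y.2 <;> simp
  rw [altv, altv]
  by_cases h : Alt (!e) s
  · rw [if_pos h, if_pos (this.2 h)]
  · rw [if_neg h, if_neg (fun h' => h (this.1 h'))]

lemma altl_flip (k : Type*) [CommRing k] (e : Bool) (l : List (V × Bool)) :
    altl k e (l.map (flipE V)) = altl k (!e) l := by
  by_cases h : l.Nodup
  · rw [altl_of_nodup k _ h, altl_of_nodup k _ (h.map (flipE V).injective), ← altv_flip]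
    congr 1
    ext x
    simp only [List.mem_toFinset, List.mem_map, Finset.mem_map, Equiv.coe_toEmbedding]
  · rw [altl_of_not_nodup k _ h, altl_of_not_nodup]
    intro h'
    exact h (List.Nodup.of_map _ h')

end BalShift
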