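import Mathlib

/-!
# Non zero minors over domains
-/

open Finset

namespace BalShift

theorem exists_minor_field {F R C : Type*} [Field F] [Fintype R] [Fintype C] [DecidableEq C]
    (M : Matrix R C F) (h : ∀ v : C → F, M.mulVec v = 0 → v = 0) :
    ∃ ρ : C → R, (M.submatrix ρ id).det ≠ 0 := by
  classical
  have h1 : M.rank = Fintype.card C := by
    rw [Matrix.rank]
    have h2 : Function.Injective M.mulVecLin := by
      rw [← LinearMap.ker_eq_bot, LinearMap.ker_eq_bot']
      intro v hv
      exact h v hv
    rw [LinearMap.finrank_range_of_inj h2]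
    simp
  rw [Matrix.rank_eq_finrank_span_row] at h1
  obtain ⟨f, hf, _, hli⟩ := Submodule.exists_fun_fin_finrank_span_eq F (Set.range M.row)
  let e : C ≃ Fin (Module.finrank F ↥(Submodule.span F (Set.range M.row))) :=
    (Fintype.equivFin C).trans (finCongr h1.symm)
  choose ρ hρ using hf
  refine ⟨fun c => ρ (e c), ?_⟩
  have h3 : LinearIndependent F (M.submatrix (fun c => ρ (e c)) id).row := by
    have h4 : (M.submatrix (fun c => ρ (e c)) id).row = f ∘ e := by
      funext c
      rw [Function.comp_apply, ← hρ]
      rfl
    rw [h4]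
    exact hli.comp _ e.injective
  rw [Matrix.linearIndependent_rows_iff_isUnit, Matrix.isUnit_iff_isUnit_det] at h3
  exact h3.ne_zero

theorem exists_minor {D R C : Type*} [CommRing D] [IsDomain D] [Fintype R] [Fintype C]
    [DecidableEq C] (M : Matrix R C D) (h : ∀ v : C → D, M.mulVec v = 0 → v = 0) :
    ∃ ρ : C → R, (M.submatrix ρ id).det ≠ 0 := by
  classical
  let F := FractionRing D
  have hinj : Function.Injective (algebraMap D F) := IsFractionRing.injective D F
  obtain ⟨ρ, hρ⟩ := exists_minor_field (M.map (algebraMap D F)) (by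
    intro v hv
    obtain ⟨b, hb⟩ := IsLocalization.exist_integer_multiples_of_finite (nonZeroDivisors D) v
    choose v' hv' using hb
    have h1 : v' = 0 := by
      apply h
      funext r
      apply hinj
      have h2 := congrFun hv r
      simp only [Matrix.mulVec, dotProduct, Matrix.map_apply, Pi.zero_apply] at h2 ⊢
      rw [map_sum, map_zero]
      have h3 : ∀ c, algebraMap D F (M r c * v' c) =
          algebraMap D F (b : D) * (algebraMap D F (M r c) * v c) := by
        intro c
        rw [map_mul, hv' c, Algebra.smul_def]; ring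
      simp only [h3, ← Finset.mul_sum, h2, mul_zero]
    funext c
    have h4 := hv' c
    rw [h1, Pi.zero_apply, map_zero, Algebra.smul_def] at h4
    have h5 : algebraMap D F (b : D) ≠ 0 := by
      rw [Ne, ← map_zero (algebraMap D F)]
      intro h6
      exact nonZeroDivisors.ne_zero b.2 (hinj h6)
    rcases mul_eq_zero.1 h4.symm with h6 | h6
    · exact absurd h6 h5
    · exact h6)
  refine ⟨ρ, fun h0 => hρ ?_⟩
  have : (M.map (algebraMap D F)).submatrix ρ id = (M.submatrix ρ id).map (algebraMap D F) := rfl
  rw [this]
  have h2 := RingHom.map_det (algebraMap D F) (M.submatrix ρ id)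
  rw [h0, map_zero] at h2
  rw [RingHom.mapMatrix_apply] at h2
  exact h2.symm

end BalShift
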