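import Pool.Agent.Lib.BalShift.Cyc

/-!
# Independence of squarefree monomials over squares, in characteristic two
-/

open Finset

namespace BalShift

open MvPolynomial in
theorem sq_indep {ι σ : Type*} [Fintype ι] (E : ι → (σ →₀ ℕ))
    (μ : ι → MvPolynomial σ (ZMod 2))
    (hE : ∀ i j, μ i ≠ 0 → μ j ≠ 0 → i ≠ j → ∃ x, ¬ (E i x % 2 = E j x % 2))
    (h : ∑ i, μ i ^ 2 * monomial (E i) 1 = 0) (i : ι) : μ i = 0 := by
  by_contra hi
  obtain ⟨e, he⟩ := MvPolynomial.exists_coeff_ne_zero hi
  apply he
  have h1 : coeff (2 • e + E i) (∑ j, μ j ^ 2 * monomial (E j) 1) = coeff e (μ i) := by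
    rw [coeff_sum, Finset.sum_eq_single i]
    · rw [coeff_mul_monomial, mul_one, ← expand_zmod, coeff_expand_smul _ two_ne_zero]
    · intro j _ hji
      by_cases hj : μ j = 0
      · rw [hj]; simp
      · rw [coeff_mul_monomial']
        by_cases hle : E j ≤ 2 • e + E i
        · rw [if_pos hle, mul_one, ← expand_zmod]
          obtain ⟨x, hx⟩ := hE i j hi hj (Ne.symm hji)
          apply coeff_expand_of_not_dvd (i := x)
          have h2 := hle x
          simp only [Finsupp.coe_tsub, Finsupp.coe_add, Finsupp.coe_smul, Pi.sub_apply,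
            Pi.add_apply, Pi.smul_apply, smul_eq_mul] at h2 ⊢
          omega
        · rw [if_neg hle]
    · intro h3; exact absurd (Finset.mem_univ _) h3
  rw [← h1, h, coeff_zero]

open MvPolynomial in
theorem stress_sq {V σ : Type*} [Fintype V] {m : ℕ} (color : V → Fin m) (α β : V → σ)
    (hα : Function.Injective α) (hαβ : ∀ v w, α v ≠ β w)
    (l : (Fin m → V) → MvPolynomial σ (ZMod 2)) (hcol : ∀ c, l c ≠ 0 → Trans color c)
    (h : ∑ c, l c ^ 2 * ∏ i, (X (α (c i)) * X (β (c i))) = 0) (c : Fin m → V) : l c = 0 := by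
  classical
  refine sq_indep (fun c => ∑ i, (Finsupp.single (α (c i)) 1 + Finsupp.single (β (c i)) 1)) l
    ?_ ?_ c
  · intro c c' hc hc' hne
    have h1 := hcol c hc
    have h2 := hcol c' hc'
    obtain ⟨i, hi⟩ : ∃ i, c i ≠ c' i := by
      by_contra hcon
      push Not at hcon
      exact hne (funext hcon)
    refine ⟨α (c i), ?_⟩
    have e1 : (∑ j, (Finsupp.single (α (c j)) 1 + Finsupp.single (β (c j)) 1) : σ →₀ ℕ) (α (c i))
        = 1 := by
      rw [Finsupp.finsetSum_apply, Finset.sum_eq_single i]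
      · simp [(hαβ (c i) (c i)).symm]
      · intro j _ hj
        have h3 : α (c j) ≠ α (c i) := fun h3 => hj (h1.inj (hα h3))
        simp [h3, (hαβ (c i) (c j)).symm]
      · intro h3; exact absurd (Finset.mem_univ _) h3
    have e2 : (∑ j, (Finsupp.single (α (c' j)) 1 + Finsupp.single (β (c' j)) 1) : σ →₀ ℕ)
        (α (c i)) = 0 := by
      rw [Finsupp.finsetSum_apply]
      refine Finset.sum_eq_zero fun j _ => ?_
      have h3 : α (c' j) ≠ α (c i) := by
        intro h3
        have h4 := hα h3
        have h5 : j = i := by rw [← h2.out j, h4, h1.out i]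
        subst h5
        exact hi h4.symm
      simp [h3, (hαβ (c i) (c' j)).symm]
    rw [e1, e2]
    decide
  · rw [← h]
    refine Finset.sum_congr rfl fun c _ => ?_
    rw [monomial_sum_one]
    congr 1
    refine Finset.prod_congr rfl fun i _ => ?_
    rw [X, X, monomial_mul, one_mul]

end BalShift
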