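import Pool.Agent.Lib.BalShift.Face
import Pool.Agent.Lib.BalShift.Minor

/-!
# Transfer from characteristic two to generic real coefficients
-/

open Finset

namespace BalShift

section matrix

variable {V E : Type*} [Fintype V] [DecidableEq V] {m : ℕ} (α β : V → E)
  (good : (Fin m → V) → Prop) [DecidablePred good]

/-- the stress matrix -/
def SM {S : Type*} [CommRing S] (Y : E → S) :
    Matrix ((Fin m × (Fin m → V) × Bool) ⊕ (Fin m → V)) (Fin m → V) S :=
  fun r c => match r with
    | Sum.inl r => (if r.2.2 then Y (α (c r.1)) else Y (β (c r.1))) *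
        ∏ j ∈ Finset.univ.erase r.1, (if r.2.1 j = c j then 1 else 0)
    | Sum.inr c0 => if c = c0 ∧ ¬ good c0 then 1 else 0

omit [Fintype V] in
lemma SM_map {S S' : Type*} [CommRing S] [CommRing S'] (φ : S →+* S') (Y : E → S) :
    (SM α β good Y).map φ = SM α β good (fun e => φ (Y e)) := by
  ext r c
  rw [Matrix.map_apply]
  rcases r with r | c0
  · simp only [SM, map_mul, map_prod]
    congr 1
    · split_ifs <;> rfl
    · refine Finset.prod_congr rfl fun j _ => ?_
      split_ifs <;> simp
  · simp only [SM]
    split_ifs <;> simp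

lemma SM_mulVec {S : Type*} [CommRing S] (Y : E → S) (l : (Fin m → V) → S) :
    (SM α β good Y).mulVec l = 0 ↔
      Stress (fun v => Y (α v)) (fun v => Y (β v)) l ∧ ∀ c, ¬ good c → l c = 0 := by
  have h1 : ∀ (i : Fin m) (G : Fin m → V) (e : Bool),
      (SM α β good Y).mulVec l (Sum.inl (i, G, e)) =
        ∑ w, l (Function.update G i w) * (if e then Y (α w) else Y (β w)) := by
    intro i G e
    have h2 := sum_update i G fun c => l c * (if e then Y (α (c i)) else Y (β (c i)))
    simp only [Function.update_self] at h2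
    rw [h2]
    simp only [Matrix.mulVec, dotProduct, SM]
    refine Finset.sum_congr rfl fun c _ => ?_
    ring
  have h3 : ∀ c0 : Fin m → V, (SM α β good Y).mulVec l (Sum.inr c0) =
      if good c0 then 0 else l c0 := by
    intro c0
    simp only [Matrix.mulVec, dotProduct, SM]
    by_cases h : good c0
    · simp [h]
    · simp [h]
  constructor
  · intro h
    refine ⟨fun i G => ⟨?_, ?_⟩, fun c hc => ?_⟩
    · have := congrFun h (Sum.inl (i, G, true))
      rw [h1] at this
      simpa using this
    · have := congrFun h (Sum.inl (i, G, false))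
      rw [h1] at this
      simpa using this
    · have := congrFun h (Sum.inr c)
      rw [h3, if_neg hc] at this
      exact this
  · rintro ⟨h4, h5⟩
    funext r
    rcases r with ⟨i, G, e⟩ | c
    · rw [h1]
      cases e
      · simpa using (h4 i G).2
      · simpa using (h4 i G).1
    · rw [h3]
      by_cases hc : good c
      · simp [hc]
      · simp [hc, h5 c hc]

lemma SM_det {S S' : Type*} [CommRing S] [CommRing S'] (φ : S →+* S') (Y : E → S)
    (ρ : (Fin m → V) → (Fin m × (Fin m → V) × Bool) ⊕ (Fin m → V)) :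
    φ ((SM α β good Y).submatrix ρ id).det =
      ((SM α β good (fun e => φ (Y e))).submatrix ρ id).det := by
  rw [RingHom.map_det, RingHom.mapMatrix_apply, ← SM_map]
  rfl

/-- there is a polynomial with rational coefficients, such that there are no non zero stresses
for coefficients outside of its zero set -/
theorem exists_poly
    (h2 : ∀ l : (Fin m → V) → MvPolynomial E (ZMod 2),
      Stress (fun v => MvPolynomial.X (α v)) (fun v => MvPolynomial.X (β v)) l →
      (∀ c, ¬ good c → l c = 0) → l = 0) :
    ∃ P : MvPolynomial E ℚ, P ≠ 0 ∧ ∀ Y : E → ℝ, MvPolynomial.aeval Y P ≠ 0 →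
      ∀ l : (Fin m → V) → ℝ, Stress (fun v => Y (α v)) (fun v => Y (β v)) l →
      (∀ c, ¬ good c → l c = 0) → l = 0 := by
  have hdom : IsDomain (MvPolynomial E (ZMod 2)) := by
    have : Fact (Nat.Prime 2) := ⟨Nat.prime_two⟩
    infer_instance
  obtain ⟨ρ, hρ⟩ := exists_minor
    (SM α β good (MvPolynomial.X : E → MvPolynomial E (ZMod 2))) (by
      intro l hl
      rw [SM_mulVec] at hl
      exact h2 l hl.1 hl.2)
  set PZ : MvPolynomial E ℤ :=
    ((SM α β good (MvPolynomial.X : E → MvPolynomial E ℤ)).submatrix ρ id).det with hPZ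
  have e2 : MvPolynomial.map (Int.castRingHom (ZMod 2)) PZ =
      ((SM α β good (MvPolynomial.X : E → MvPolynomial E (ZMod 2))).submatrix ρ id).det := by
    rw [hPZ, SM_det]
    simp only [MvPolynomial.map_X]
  have hPZ0 : PZ ≠ 0 := by
    intro h
    rw [h, map_zero] at e2
    exact hρ e2.symm
  refine ⟨MvPolynomial.map (Int.castRingHom ℚ) PZ, ?_, ?_⟩
  · intro h
    apply hPZ0
    apply MvPolynomial.map_injective (Int.castRingHom ℚ) (RingHom.injective_int _)
    rw [h, map_zero]
  · intro Y hY l hl hgood
    have e3 : MvPolynomial.aeval Y (MvPolynomial.map (Int.castRingHom ℚ) PZ) =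
        ((SM α β good Y).submatrix ρ id).det := by
      rw [MvPolynomial.aeval_def, MvPolynomial.eval₂_map]
      have e4 : MvPolynomial.eval₂ ((algebraMap ℚ ℝ).comp (Int.castRingHom ℚ)) Y PZ =
          MvPolynomial.eval₂Hom ((algebraMap ℚ ℝ).comp (Int.castRingHom ℚ)) Y PZ := rfl
      rw [e4, hPZ, SM_det]
      simp only [MvPolynomial.eval₂Hom_X']
    rw [e3] at hY
    have e5 : (SM α β good Y).mulVec l = 0 := (SM_mulVec α β good Y l).2 ⟨hl, hgood⟩
    apply Matrix.eq_zero_of_mulVec_eq_zero hY
    funext r
    exact congrFun e5 (ρ r)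

end matrix

open MvPolynomial in
/-- the block matrix has non zero determinant -/
theorem block_det {V : Type*} [Fintype V] [DecidableEq V] {d : ℕ} (color : V → Fin (d + 1)) :
    ∃ P : MvPolynomial (Ent color) ℚ, P ≠ 0 ∧ ∀ Θ : V → V → ℝ,
      aeval (fun p : Ent color => Θ p.1.1 p.1.2) P =
        (Matrix.of fun v w => if color v = color w then Θ v w else 0 : Matrix V V ℝ).det := by
  set T : Matrix V V (MvPolynomial (Ent color) ℚ) := Matrix.of fun v w =>
    if h : color v = color w then X ⟨(v, w), h⟩ else 0 with hT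
  have hmap : ∀ {S : Type} [CommRing S] (φ : MvPolynomial (Ent color) ℚ →+* S) (Θ : V → V → S)
      (_ : ∀ p : Ent color, φ (X p) = Θ p.1.1 p.1.2), φ T.det =
        (Matrix.of fun v w => if color v = color w then Θ v w else 0 : Matrix V V S).det := by
    intro S _ φ Θ hΘ
    rw [RingHom.map_det, RingHom.mapMatrix_apply]
    congr 1
    ext v w
    simp only [hT, Matrix.map_apply, Matrix.of_apply]
    by_cases h : color v = color w
    · rw [dif_pos h, if_pos h, hΘ]
    · rw [dif_neg h, if_neg h, map_zero]
  refine ⟨T.det, ?_, ?_⟩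
  · intro h0
    have h1 := hmap (aeval (fun p : Ent color => (if p.1.1 = p.1.2 then 1 else 0 : ℚ)) :
      MvPolynomial (Ent color) ℚ →ₐ[ℚ] ℚ).toRingHom
      (fun v w => if v = w then 1 else 0) (by intro p; simp)
    rw [h0, map_zero] at h1
    have h2 : (Matrix.of fun v w => if color v = color w then (if v = w then 1 else 0 : ℚ) else 0 :
        Matrix V V ℚ) = 1 := by
      ext v w
      rw [Matrix.of_apply, Matrix.one_apply]
      by_cases h : v = w
      · subst h; simp
      · simp [h]
    rw [h2, Matrix.det_one] at h1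
    exact zero_ne_one h1
  · intro Θ
    exact hmap (aeval (fun p : Ent color => Θ p.1.1 p.1.2) :
      MvPolynomial (Ent color) ℚ →ₐ[ℚ] ℝ).toRingHom Θ (by intro p; simp)

end BalShift
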